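import Pool.Agent.R264.HI.Main

namespace Pool.Agent.R264.HI

open MeasureTheory Set Filter Topology
open scoped ENNReal NNReal

lemma HI_mono {C D : ℝ} (h : HI C) (hCD : C ≤ D) : HI D := by
  intro f g hf hg hnf hng
  refine (h f g hf hg hnf hng).trans ?_
  gcongr

lemma HI_closed {C : ℝ} (h : ∀ D, C < D → HI D) : HI C := by
  intro f g hf hg hnf hng
  have ht : Tendsto (fun D : ℝ => ENNReal.ofReal D * normI f * normI g) (𝓝[>] C)
      (𝓝 (ENNReal.ofReal C * normI f * normI g)) := by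
    have h1 : Tendsto (fun D : ℝ => ENNReal.ofReal D) (𝓝[>] C) (𝓝 (ENNReal.ofReal C)) :=
      (ENNReal.continuous_ofReal.tendsto C).mono_left nhdsWithin_le_nhds
    have h2 := ENNReal.Tendsto.mul_const h1 (Or.inr hnf)
    exact ENNReal.Tendsto.mul_const h2 (Or.inr hng)
  refine ge_of_tendsto ht ?_
  filter_upwards [self_mem_nhdsWithin] with D hD
  exact h D hD f g hf hg hnf hng

theorem assemble (hSI : S_SI) (hIS : S_IS) (hLOG : S_LOG) {l : ℝ} (hl : ∀ C, HI C → l ≤ C) :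
    ∃ C₀ : ℝ, l ≤ C₀ ∧ C₀ < √Real.pi ∧ (∀ C : ℝ, HS C ↔ C₀ ≤ C) ∧ (∀ C : ℝ, HI C ↔ C₀ ≤ C) := by
  obtain ⟨c, hc0, hc1, hc2⟩ := line
  have hc := hLOG c hc0 hc2
  set S : Set ℝ := {C | HI C} with hS
  have hbdd : BddBelow S := ⟨l, fun C hC => hl C hC⟩
  have hne : S.Nonempty := ⟨c, hc⟩
  have hall : ∀ D, sInf S < D → HI D := by
    intro D hD
    obtain ⟨C, hC, hCD⟩ := exists_lt_of_csInf_lt hne hD
    exact HI_mono hC hCD.le
  have h0 : HI (sInf S) := HI_closed hall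
  have hI : ∀ C : ℝ, HI C ↔ sInf S ≤ C :=
    fun C => ⟨fun h => csInf_le hbdd h, fun h => HI_mono h0 h⟩
  refine ⟨sInf S, le_csInf hne fun C hC => hl C hC, lt_of_le_of_lt (csInf_le hbdd hc) hc1, ?_, hI⟩
  intro C
  rw [← hI C]
  exact ⟨hIS C, hSI C⟩

end Pool.Agent.R264.HI
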