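import Mathlib

/-! Hilbert-type forms with exponent 1/2 on sequences and functions with finite 4/3-norm. -/

namespace Pool.Agent.R264.HI

open MeasureTheory Set
open scoped ENNReal NNReal

noncomputable section

/-- The kernel `(m+n)^{-1/2}` for sequences indexed from 1: index `m : ℕ` stands for `m + 1`. -/
def kerS (m n : ℕ) : ℝ≥0∞ :=
  ENNReal.ofReal ((((m : ℝ) + 1) + ((n : ℝ) + 1)) ^ (-(1 / 2) : ℝ))

/-- The 4/3-norm of the sequence `a_1, a_2, …`, where `a m` is `a_{m+1}`. -/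
def normS (a : ℕ → ℝ≥0) : ℝ≥0∞ := (∑' m, (a m : ℝ≥0∞) ^ (4 / 3 : ℝ)) ^ (3 / 4 : ℝ)

/-- The double series `∑ a_m b_n (m+n)^{-1/2}`. -/
def formS (a b : ℕ → ℝ≥0) : ℝ≥0∞ := ∑' m, ∑' n, (a m : ℝ≥0∞) * (b n : ℝ≥0∞) * kerS m n

/-- Inequality (S) with constant `C`. -/
def HS (C : ℝ) : Prop :=
  ∀ a b : ℕ → ℝ≥0, normS a ≠ ∞ → normS b ≠ ∞ →
    formS a b ≤ ENNReal.ofReal C * normS a * normS b

/-- The kernel `(x+y)^{-1/2}`. -/
def kerI (x y : ℝ) : ℝ≥0∞ := ENNReal.ofReal ((x + y) ^ (-(1 / 2) : ℝ))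

/-- The 4/3-norm of `f` on `(0,∞)`. -/
def normI (f : ℝ → ℝ≥0) : ℝ≥0∞ :=
  (∫⁻ x in Ioi (0 : ℝ), (f x : ℝ≥0∞) ^ (4 / 3 : ℝ)) ^ (3 / 4 : ℝ)

/-- The double integral of `f(x) g(y) (x+y)^{-1/2}` over `(0,∞)²`. -/
def formI (f g : ℝ → ℝ≥0) : ℝ≥0∞ :=
  ∫⁻ x in Ioi (0 : ℝ), ∫⁻ y in Ioi (0 : ℝ), (f x : ℝ≥0∞) * (g y : ℝ≥0∞) * kerI x y

/-- Inequality (I) with constant `C`. -/
def HI (C : ℝ) : Prop :=
  ∀ f g : ℝ → ℝ≥0, Measurable f → Measurable g → normI f ≠ ∞ → normI g ≠ ∞ →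
    formI f g ≤ ENNReal.ofReal C * normI f * normI g

/-- The Hilbert kernel in logarithmic coordinates: `1/(x+y)` becomes `kap (log x - log y)`. -/
def kap (w : ℝ) : ℝ := 1 / (Real.exp (w / 2) + Real.exp (-(w / 2)))

/-- The inequality in logarithmic coordinates, normalised, with constant `c`. -/
def HL (c : ℝ) : Prop :=
  ∀ F G : ℝ → ℝ≥0, Measurable F → Measurable G →
    ∫⁻ u, (F u : ℝ≥0∞) ^ (4 / 3 : ℝ) = 1 → ∫⁻ v, (G v : ℝ≥0∞) ^ (4 / 3 : ℝ) = 1 →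
    ∫⁻ u, ∫⁻ v, (F u : ℝ≥0∞) * (G v : ℝ≥0∞) * ENNReal.ofReal (√(kap (u - v)))
      ≤ ENNReal.ofReal c

/-- (I) implies (S), by step functions. -/
def S_SI : Prop := ∀ C : ℝ, HI C → HS C

/-- (S) implies (I), by cell averages and dilation. -/
def S_IS : Prop := ∀ C : ℝ, HS C → HI C

/-- The logarithmic form implies (I). -/
def S_LOG : Prop := ∀ c : ℝ, 0 < c → HL c → HI c

end

end Pool.Agent.R264.HI
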