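import Pool.Agent.R264.HI.Defs

/-! # (S) implies (I), by cell averages and dilation -/

namespace Pool.Agent.R264.HI

open MeasureTheory Set Filter Topology
open scoped ENNReal NNReal

noncomputable section

namespace IS

/-- the cells -/
def J (N : ℕ) (m : ℕ) : Set ℝ := Ioc ((m : ℝ) / N) (((m : ℝ) + 1) / N)

theorem mem_J {N m : ℕ} (hN : 0 < N) {x : ℝ} : x ∈ J N m ↔ ⌈(N : ℝ) * x⌉₊ = m + 1 := by
  have hN' : (0 : ℝ) < N := by exact_mod_cast hN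
  rw [Nat.ceil_eq_iff (Nat.succ_ne_zero m), J, mem_Ioc, div_lt_iff₀' hN', le_div_iff₀' hN']
  simp

theorem meas_J {N m : ℕ} : MeasurableSet (J N m) := measurableSet_Ioc

theorem union_J {N : ℕ} (hN : 0 < N) : (⋃ m, J N m) = Ioi 0 := by
  ext x
  simp only [mem_iUnion, mem_J hN, mem_Ioi]
  have hN' : (0 : ℝ) < N := by exact_mod_cast hN
  constructor
  · rintro ⟨m, hm⟩
    have h : 0 < ⌈(N : ℝ) * x⌉₊ := by omega
    rw [Nat.ceil_pos] at h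
    by_contra hx
    push Not at hx
    nlinarith
  · intro hx
    have h : 0 < ⌈(N : ℝ) * x⌉₊ := Nat.ceil_pos.2 (by positivity)
    exact ⟨⌈(N : ℝ) * x⌉₊ - 1, by omega⟩

theorem disj_J {N : ℕ} (hN : 0 < N) : Pairwise (Function.onFun Disjoint (J N)) := by
  intro m n hmn
  rw [Function.onFun, Set.disjoint_left]
  intro x h1 h2
  rw [mem_J hN] at h1 h2
  omega

theorem lint_J {N : ℕ} (hN : 0 < N) (h : ℝ → ℝ≥0∞) :
    ∫⁻ x in Ioi (0 : ℝ), h x = ∑' m, ∫⁻ x in J N m, h x := by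
  rw [← union_J hN, lintegral_iUnion (fun _ => meas_J) (disj_J hN)]

theorem vol_J {N m : ℕ} (hN : 0 < N) : volume (J N m) = (N : ℝ≥0∞)⁻¹ := by
  have hN' : (0 : ℝ) < N := by exact_mod_cast hN
  rw [J, Real.volume_Ioc, ← sub_div, add_sub_cancel_left, one_div,
    ENNReal.ofReal_inv_of_pos hN', ENNReal.ofReal_natCast]

theorem hold {N m : ℕ} (hN : 0 < N) {f : ℝ → ℝ≥0∞} (hf : Measurable f) :
    (∫⁻ x in J N m, f x) ≤ (∫⁻ x in J N m, f x ^ (4 / 3 : ℝ)) ^ (3 / 4 : ℝ) *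
      ((N : ℝ≥0∞)⁻¹) ^ (1 / 4 : ℝ) := by
  have hc : (4 / 3 : ℝ).HolderConjugate 4 := by
    rw [Real.holderConjugate_iff]; norm_num
  have h := ENNReal.lintegral_mul_le_Lp_mul_Lq (volume.restrict (J N m)) hc hf.aemeasurable
    (g := fun _ => 1) aemeasurable_const
  have e1 : ∫⁻ x in J N m, (f * (fun _ => 1 : ℝ → ℝ≥0∞)) x = ∫⁻ x in J N m, f x := by
    refine lintegral_congr fun x => ?_
    simp
  have e2 : ∫⁻ x in J N m, ((fun _ => 1 : ℝ → ℝ≥0∞) x) ^ (4 : ℝ) = (N : ℝ≥0∞)⁻¹ := by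
    simp only [ENNReal.one_rpow]
    rw [setLIntegral_const, one_mul, vol_J hN]
  rw [e1, e2] at h
  have e3 : (1 / (4 / 3 : ℝ)) = 3 / 4 := by norm_num
  rw [e3] at h
  exact h

variable {N : ℕ}

theorem Nne0 (hN : 0 < N) : (N : ℝ≥0∞) ≠ 0 := by exact_mod_cast hN.ne'

theorem Nnet : (N : ℝ≥0∞) ≠ ⊤ := ENNReal.natCast_ne_top N

theorem pw (hN : 0 < N) (a b c : ℝ) (h : a + b = c) :
    (N : ℝ≥0∞) ^ a * (N : ℝ≥0∞) ^ b = (N : ℝ≥0∞) ^ c := by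
  rw [← h, ENNReal.rpow_add _ _ (Nne0 hN) Nnet]

/-- the cell averages -/
def av (N : ℕ) (f : ℝ → ℝ≥0) (m : ℕ) : ℝ≥0∞ := (N : ℝ≥0∞) * ∫⁻ x in J N m, (f x : ℝ≥0∞)

theorem av_le (hN : 0 < N) {f : ℝ → ℝ≥0} (hf : Measurable f) (m : ℕ) :
    av N f m ^ (4 / 3 : ℝ) ≤ (N : ℝ≥0∞) * ∫⁻ x in J N m, (f x : ℝ≥0∞) ^ (4 / 3 : ℝ) := by
  have h := hold (m := m) hN (f := fun x => (f x : ℝ≥0∞)) hf.coe_nnreal_ennreal
  have h1 : av N f m ≤ (N : ℝ≥0∞) * ((∫⁻ x in J N m, (f x : ℝ≥0∞) ^ (4 / 3 : ℝ)) ^ (3 / 4 : ℝ) *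
      ((N : ℝ≥0∞)⁻¹) ^ (1 / 4 : ℝ)) := by
    unfold av
    gcongr
  refine (ENNReal.rpow_le_rpow h1 (by norm_num)).trans (le_of_eq ?_)
  rw [ENNReal.mul_rpow_of_nonneg _ _ (by norm_num), ENNReal.mul_rpow_of_nonneg _ _ (by norm_num),
    ← ENNReal.rpow_mul, ← ENNReal.rpow_mul, ENNReal.inv_rpow, ← ENNReal.rpow_neg]
  have e1 : (3 / 4 * (4 / 3) : ℝ) = 1 := by norm_num
  have e2 : (-(1 / 4 * (4 / 3)) : ℝ) = -(1 / 3) := by norm_num
  rw [e1, e2, ENNReal.rpow_one, mul_comm (∫⁻ x in J N m, (f x : ℝ≥0∞) ^ (4 / 3 : ℝ)),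
    ← mul_assoc, pw hN (4 / 3) (-(1 / 3)) 1 (by norm_num), ENNReal.rpow_one]

theorem av_sum (hN : 0 < N) {f : ℝ → ℝ≥0} (hf : Measurable f) :
    (∑' m, av N f m ^ (4 / 3 : ℝ)) ^ (3 / 4 : ℝ) ≤ (N : ℝ≥0∞) ^ (3 / 4 : ℝ) * normI f := by
  unfold normI
  rw [← ENNReal.mul_rpow_of_nonneg _ _ (by norm_num)]
  apply ENNReal.rpow_le_rpow _ (by norm_num)
  rw [lint_J hN, ← ENNReal.tsum_mul_left]
  exact ENNReal.tsum_le_tsum fun m => av_le hN hf m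

theorem av_fin (hN : 0 < N) {f : ℝ → ℝ≥0} (hf : Measurable f) (hfi : normI f ≠ ∞) (m : ℕ) :
    av N f m ≠ ∞ := by
  intro h
  have h1 := av_le hN hf m
  have h3 : av N f m ^ (4 / 3 : ℝ) = ∞ := by
    rw [h, ENNReal.top_rpow_of_pos (by norm_num)]
  rw [h3, top_le_iff] at h1
  have h4 : ∫⁻ x in Ioi (0 : ℝ), (f x : ℝ≥0∞) ^ (4 / 3 : ℝ) ≠ ∞ := by
    intro h5
    apply hfi
    unfold normI
    rw [h5, ENNReal.top_rpow_of_pos (by norm_num)]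
  have h5 : ∫⁻ x in J N m, (f x : ℝ≥0∞) ^ (4 / 3 : ℝ) ≠ ∞ := by
    refine ne_top_of_le_ne_top h4 ?_
    rw [lint_J hN]
    exact ENNReal.le_tsum m
  exact ENNReal.mul_ne_top Nnet h5 h1

/-- the approximating kernel -/
def kN (N : ℕ) (x y : ℝ) : ℝ≥0∞ := ENNReal.ofReal ((x + y + 2 / N) ^ (-(1 / 2) : ℝ))

theorem kN_le (hN : 0 < N) {m n : ℕ} {x y : ℝ} (hx : x ∈ J N m) (hy : y ∈ J N n) :
    kN N x y ≤ (N : ℝ≥0∞) ^ (1 / 2 : ℝ) * kerS m n := by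
  have hN' : (0 : ℝ) < N := by exact_mod_cast hN
  have e1 : (N : ℝ≥0∞) ^ (1 / 2 : ℝ) = ENNReal.ofReal ((N : ℝ) ^ (1 / 2 : ℝ)) := by
    rw [← ENNReal.ofReal_rpow_of_pos hN', ENNReal.ofReal_natCast]
  unfold kN kerS
  rw [e1, ← ENNReal.ofReal_mul (by positivity)]
  apply ENNReal.ofReal_le_ofReal
  have hx1 := hx.1
  have hy1 := hy.1
  rw [div_lt_iff₀ hN'] at hx1 hy1
  have hm : (0 : ℝ) ≤ m := Nat.cast_nonneg m
  have hn : (0 : ℝ) ≤ n := Nat.cast_nonneg n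
  have hx0 : 0 < x := by
    by_contra h
    push Not at h
    nlinarith
  have hy0 : 0 < y := by
    by_contra h
    push Not at h
    nlinarith
  have hB : 0 < x + y + 2 / N := by positivity
  have hA : ((m : ℝ) + 1) + ((n : ℝ) + 1) ≤ N * (x + y + 2 / N) := by
    have : (N : ℝ) * (x + y + 2 / N) = N * x + N * y + 2 := by field_simp
    rw [this]
    nlinarith
  have hA0 : 0 < ((m : ℝ) + 1) + ((n : ℝ) + 1) := by positivity
  have h1 : (N * (x + y + 2 / N)) ^ (-(1 / 2) : ℝ) ≤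
      (((m : ℝ) + 1) + ((n : ℝ) + 1)) ^ (-(1 / 2) : ℝ) :=
    Real.rpow_le_rpow_of_nonpos hA0 hA (by norm_num)
  rw [Real.mul_rpow hN'.le hB.le] at h1
  have h2 : (N : ℝ) ^ (1 / 2 : ℝ) * (N : ℝ) ^ (-(1 / 2) : ℝ) = 1 := by
    rw [← Real.rpow_add hN']; norm_num
  have h3 : 0 < (N : ℝ) ^ (1 / 2 : ℝ) := by positivity
  calc (x + y + 2 / N) ^ (-(1 / 2) : ℝ)
      = (N : ℝ) ^ (1 / 2 : ℝ) * ((N : ℝ) ^ (-(1 / 2) : ℝ) * (x + y + 2 / N) ^ (-(1 / 2) : ℝ)) := by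
        rw [← mul_assoc, h2, one_mul]
    _ ≤ _ := by gcongr

theorem kN_meas : Measurable fun p : ℝ × ℝ => kN N p.1 p.2 := by
  unfold kN
  fun_prop

/-- the approximating form -/
def FN (N : ℕ) (f g : ℝ → ℝ≥0) : ℝ≥0∞ :=
  ∫⁻ x in Ioi (0 : ℝ), ∫⁻ y in Ioi (0 : ℝ), (f x : ℝ≥0∞) * (g y : ℝ≥0∞) * kN N x y

theorem FN_le1 (hN : 0 < N) {f g : ℝ → ℝ≥0} (hf : Measurable f) (hg : Measurable g) :
    FN N f g ≤ ∑' m, ∑' n, (∫⁻ x in J N m, (f x : ℝ≥0∞)) * (∫⁻ y in J N n, (g y : ℝ≥0∞)) *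
      ((N : ℝ≥0∞) ^ (1 / 2 : ℝ) * kerS m n) := by
  unfold FN
  rw [lint_J hN]
  refine ENNReal.tsum_le_tsum fun m => ?_
  have hmf : Measurable fun x => (f x : ℝ≥0∞) := hf.coe_nnreal_ennreal
  have hmg : Measurable fun y => (g y : ℝ≥0∞) := hg.coe_nnreal_ennreal
  have hk : Measurable fun p : ℝ × ℝ => kN N p.1 p.2 := kN_meas
  have hj : Measurable fun p : ℝ × ℝ => (f p.1 : ℝ≥0∞) * (g p.2 : ℝ≥0∞) * kN N p.1 p.2 :=
    ((hmf.comp measurable_fst).mul (hmg.comp measurable_snd)).mul hk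
  calc ∫⁻ x in J N m, ∫⁻ y in Ioi (0 : ℝ), (f x : ℝ≥0∞) * (g y : ℝ≥0∞) * kN N x y
      = ∫⁻ x in J N m, ∑' n, ∫⁻ y in J N n, (f x : ℝ≥0∞) * (g y : ℝ≥0∞) * kN N x y := by
        refine lintegral_congr fun x => ?_
        rw [lint_J hN]
    _ = ∑' n, ∫⁻ x in J N m, ∫⁻ y in J N n, (f x : ℝ≥0∞) * (g y : ℝ≥0∞) * kN N x y := by
        rw [lintegral_tsum]
        intro n
        exact hj.lintegral_prod_right'.aemeasurable
    _ ≤ _ := by
        refine ENNReal.tsum_le_tsum fun n => ?_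
        calc ∫⁻ x in J N m, ∫⁻ y in J N n, (f x : ℝ≥0∞) * (g y : ℝ≥0∞) * kN N x y
            ≤ ∫⁻ x in J N m, ∫⁻ y in J N n, (f x : ℝ≥0∞) *
              ((N : ℝ≥0∞) ^ (1 / 2 : ℝ) * kerS m n) * (g y : ℝ≥0∞) := by
              refine setLIntegral_mono' meas_J fun x hx => ?_
              refine setLIntegral_mono' meas_J fun y hy => ?_
              have := kN_le hN hx hy
              rw [mul_assoc, mul_assoc, mul_comm (g y : ℝ≥0∞)]
              gcongr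
          _ = ∫⁻ x in J N m, (f x : ℝ≥0∞) * (((N : ℝ≥0∞) ^ (1 / 2 : ℝ) * kerS m n) *
              ∫⁻ y in J N n, (g y : ℝ≥0∞)) := by
              refine lintegral_congr fun x => ?_
              rw [lintegral_const_mul _ hmg, mul_assoc]
          _ = _ := by
              rw [lintegral_mul_const _ hmf]
              ring

theorem FN_le (hN : 0 < N) {C : ℝ} (hC : HS C) {f g : ℝ → ℝ≥0} (hf : Measurable f)
    (hg : Measurable g) (hfi : normI f ≠ ∞) (hgi : normI g ≠ ∞) :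
    FN N f g ≤ ENNReal.ofReal C * normI f * normI g := by
  let a : ℕ → ℝ≥0 := fun m => (av N f m).toNNReal
  let b : ℕ → ℝ≥0 := fun m => (av N g m).toNNReal
  have ha : ∀ m, (a m : ℝ≥0∞) = av N f m := fun m => ENNReal.coe_toNNReal (av_fin hN hf hfi m)
  have hb : ∀ m, (b m : ℝ≥0∞) = av N g m := fun m => ENNReal.coe_toNNReal (av_fin hN hg hgi m)
  have hna : normS a ≤ (N : ℝ≥0∞) ^ (3 / 4 : ℝ) * normI f := by
    unfold normS
    simp only [ha]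
    exact av_sum hN hf
  have hnb : normS b ≤ (N : ℝ≥0∞) ^ (3 / 4 : ℝ) * normI g := by
    unfold normS
    simp only [hb]
    exact av_sum hN hg
  have hpt : (N : ℝ≥0∞) ^ (3 / 4 : ℝ) ≠ ⊤ := ENNReal.rpow_ne_top_of_nonneg (by norm_num) Nnet
  have h1 := hC a b (ne_top_of_le_ne_top (ENNReal.mul_ne_top hpt hfi) hna)
    (ne_top_of_le_ne_top (ENNReal.mul_ne_top hpt hgi) hnb)
  have h2 : (N : ℝ≥0∞) ^ (2 : ℝ) * FN N f g ≤ (N : ℝ≥0∞) ^ (1 / 2 : ℝ) * formS a b := by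
    refine (mul_le_mul_right (FN_le1 hN hf hg) _).trans (le_of_eq ?_)
    unfold formS
    rw [← ENNReal.tsum_mul_left, ← ENNReal.tsum_mul_left]
    refine tsum_congr fun m => ?_
    rw [← ENNReal.tsum_mul_left, ← ENNReal.tsum_mul_left]
    refine tsum_congr fun n => ?_
    rw [ha, hb]
    unfold av
    have e : (N : ℝ≥0∞) ^ (2 : ℝ) = (N : ℝ≥0∞) * N := by
      rw [← pw hN 1 1 2 (by norm_num), ENNReal.rpow_one]
    rw [e]
    ring
  have h3 : (N : ℝ≥0∞) ^ (2 : ℝ) * FN N f g ≤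
      (N : ℝ≥0∞) ^ (2 : ℝ) * (ENNReal.ofReal C * normI f * normI g) := by
    refine h2.trans ?_
    calc (N : ℝ≥0∞) ^ (1 / 2 : ℝ) * formS a b
        ≤ (N : ℝ≥0∞) ^ (1 / 2 : ℝ) * (ENNReal.ofReal C * ((N : ℝ≥0∞) ^ (3 / 4 : ℝ) * normI f) *
          ((N : ℝ≥0∞) ^ (3 / 4 : ℝ) * normI g)) := by
          refine mul_le_mul_right (h1.trans ?_) _
          gcongr
      _ = _ := by
          have e : (N : ℝ≥0∞) ^ (2 : ℝ) = (N : ℝ≥0∞) ^ (1 / 2 : ℝ) * ((N : ℝ≥0∞) ^ (3 / 4 : ℝ) *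
              (N : ℝ≥0∞) ^ (3 / 4 : ℝ)) := by
            rw [pw hN (3 / 4) (3 / 4) (3 / 2) (by norm_num), pw hN _ _ 2 (by norm_num)]
          rw [e]
          ring
  have h20 : (N : ℝ≥0∞) ^ (2 : ℝ) ≠ 0 := by
    rw [Ne, ENNReal.rpow_eq_zero_iff]
    rintro (⟨h, _⟩ | ⟨h, _⟩)
    · exact Nne0 hN h
    · exact Nnet h
  have h2t : (N : ℝ≥0∞) ^ (2 : ℝ) ≠ ⊤ := ENNReal.rpow_ne_top_of_nonneg (by norm_num) Nnet
  exact (ENNReal.mul_le_mul_iff_right h20 h2t).1 h3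

end IS

open IS

theorem t_IS : S_IS := by
  intro C hC f g hf hg hfi hgi
  have hmf : Measurable fun x => (f x : ℝ≥0∞) := hf.coe_nnreal_ennreal
  have hmg : Measurable fun y => (g y : ℝ≥0∞) := hg.coe_nnreal_ennreal
  have hj : ∀ N : ℕ, Measurable fun p : ℝ × ℝ =>
      (f p.1 : ℝ≥0∞) * (g p.2 : ℝ≥0∞) * kN (N + 1) p.1 p.2 := fun N =>
    ((hmf.comp measurable_fst).mul (hmg.comp measurable_snd)).mul kN_meas
  have hlim : ∀ x ∈ Ioi (0 : ℝ), ∀ y ∈ Ioi (0 : ℝ),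
      Tendsto (fun N : ℕ => (f x : ℝ≥0∞) * (g y : ℝ≥0∞) * kN (N + 1) x y) atTop
        (𝓝 ((f x : ℝ≥0∞) * (g y : ℝ≥0∞) * kerI x y)) := by
    intro x hx y hy
    have hx : 0 < x := hx
    have hy : 0 < y := hy
    refine ENNReal.Tendsto.const_mul ?_ (Or.inr (ENNReal.mul_ne_top ENNReal.coe_ne_top
      ENNReal.coe_ne_top))
    unfold kN kerI
    refine (ENNReal.continuous_ofReal.tendsto _).comp ?_
    have h1 : Tendsto (fun N : ℕ => x + y + 2 / ((N + 1 : ℕ) : ℝ)) atTop (𝓝 (x + y + 0)) := by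
      refine tendsto_const_nhds.add ?_
      have := (tendsto_one_div_add_atTop_nhds_zero_nat (𝕜 := ℝ)).const_mul 2
      rw [mul_zero] at this
      refine this.congr fun N => ?_
      push_cast
      ring
    rw [add_zero] at h1
    exact h1.rpow_const (Or.inl (by positivity))
  calc formI f g
      = ∫⁻ x in Ioi (0 : ℝ), ∫⁻ y in Ioi (0 : ℝ),
        liminf (fun N : ℕ => (f x : ℝ≥0∞) * (g y : ℝ≥0∞) * kN (N + 1) x y) atTop := by
        unfold formI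
        refine setLIntegral_congr_fun measurableSet_Ioi fun x hx => ?_
        refine setLIntegral_congr_fun measurableSet_Ioi fun y hy => ?_
        exact (hlim x hx y hy).liminf_eq.symm
    _ ≤ ∫⁻ x in Ioi (0 : ℝ), liminf (fun N : ℕ => ∫⁻ y in Ioi (0 : ℝ),
        (f x : ℝ≥0∞) * (g y : ℝ≥0∞) * kN (N + 1) x y) atTop := by
        refine lintegral_mono fun x => ?_
        refine lintegral_liminf_le fun N => ?_
        exact (hj N).comp measurable_prodMk_left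
    _ ≤ liminf (fun N : ℕ => FN (N + 1) f g) atTop := by
        refine lintegral_liminf_le fun N => ?_
        exact (hj N).lintegral_prod_right'
    _ ≤ liminf (fun _ : ℕ => ENNReal.ofReal C * normI f * normI g) atTop :=
        liminf_le_liminf (Eventually.of_forall fun N => FN_le (Nat.succ_pos N) hC hf hg hfi hgi)
    _ = _ := liminf_const _

end

end Pool.Agent.R264.HI
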