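import Pool.Agent.R264.HI.Defs

namespace Pool.Agent.R264.HI

open MeasureTheory Set Filter Topology
open scoped ENNReal NNReal

lemma kap_pos (w : ℝ) : 0 < kap w := by
  unfold kap; positivity

lemma kap_even (w : ℝ) : kap (-w) = kap w := by
  unfold kap
  rw [neg_div, neg_neg, add_comm]

lemma kap_continuous : Continuous kap := by
  unfold kap
  refine continuous_const.div (by fun_prop) (fun x => by positivity)

lemma kap_anti {w R : ℝ} (h : |w| ≤ R) : kap R ≤ kap w := by
  have h1 : kap w = kap |w| := by
    rcases abs_cases w with ⟨h2, _⟩ | ⟨h2, _⟩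
    · rw [h2]
    · rw [h2, kap_even]
  rw [h1]
  have h0 := abs_nonneg w
  set z := |w|
  unfold kap
  apply one_div_le_one_div_of_le (by positivity)
  -- e^(z/2) + e^(-z/2) ≤ e^(R/2) + e^(-R/2)
  have h3 : (Real.exp (R / 2) + Real.exp (-(R / 2))) = 2 * Real.cosh (R / 2) := by
    rw [Real.cosh_eq]; ring
  have h4 : (Real.exp (z / 2) + Real.exp (-(z / 2))) = 2 * Real.cosh (z / 2) := by
    rw [Real.cosh_eq]; ring
  rw [h3, h4]
  have : Real.cosh (z / 2) ≤ Real.cosh (R / 2) := by
    rw [Real.cosh_le_cosh, abs_of_nonneg (by positivity), abs_of_nonneg (by linarith)]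
    linarith
  linarith

lemma hasDeriv_arctan (w : ℝ) :
    HasDerivAt (fun w => 2 * Real.arctan (Real.exp (w / 2))) (kap w) w := by
  have h1 : HasDerivAt (fun w : ℝ => Real.exp (w / 2)) (Real.exp (w / 2) * (1 / 2)) w := by
    have := (hasDerivAt_id w).div_const 2
    exact this.exp
  have h2 := (h1.arctan).const_mul 2
  refine h2.congr_deriv ?_
  unfold kap
  rw [Real.exp_neg]
  have hp := Real.exp_pos (w / 2)
  field_simp
  ring

lemma integrable_kap : Integrable kap := by
  have hcont : Continuous (fun w : ℝ => 2 * Real.arctan (Real.exp (w / 2))) := by fun_prop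
  have hIoi : IntegrableOn kap (Ioi 0) := by
    apply integrableOn_Ioi_deriv_of_nonneg' (l := 2 * (Real.pi / 2))
      (fun x _ => hasDeriv_arctan x) (fun x _ => (kap_pos x).le)
    apply Tendsto.const_mul
    apply (Real.tendsto_arctan_atTop.mono_right nhdsWithin_le_nhds).comp
    exact Real.tendsto_exp_atTop.comp (tendsto_id.atTop_div_const (by norm_num))
  have hIic : IntegrableOn kap (Iic 0) := by
    refine Integrable.mono' (integrableOn_exp_mul_Iic (a := 1 / 2) (by norm_num) 0)
      kap_continuous.aestronglyMeasurable (ae_of_all _ fun w => ?_)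
    rw [Real.norm_of_nonneg (kap_pos w).le]
    have h1 : Real.exp (1 / 2 * w) = 1 / Real.exp (-(w / 2)) := by
      rw [Real.exp_neg, one_div (Real.exp (w / 2))⁻¹, inv_inv]; congr 1; ring
    rw [h1]
    unfold kap
    apply one_div_le_one_div_of_le (Real.exp_pos _)
    have := Real.exp_pos (w / 2)
    linarith
  rw [← integrableOn_univ, ← Iic_union_Ioi (a := (0 : ℝ))]
  exact hIic.union hIoi

lemma integral_kap : ∫ w, kap w = Real.pi := by
  have h1 : Tendsto (fun w : ℝ => 2 * Real.arctan (Real.exp (w / 2))) atTop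
      (𝓝 (2 * (Real.pi / 2))) := by
    apply Tendsto.const_mul
    apply (Real.tendsto_arctan_atTop.mono_right nhdsWithin_le_nhds).comp
    exact Real.tendsto_exp_atTop.comp (tendsto_id.atTop_div_const (by norm_num))
  have h2 : Tendsto (fun w : ℝ => 2 * Real.arctan (Real.exp (w / 2))) atBot
      (𝓝 (2 * Real.arctan 0)) := by
    apply Tendsto.const_mul
    apply (Real.continuous_arctan.tendsto 0).comp
    exact Real.tendsto_exp_atBot.comp (tendsto_id.atBot_div_const (by norm_num))
  rw [integral_of_hasDerivAt_of_tendsto hasDeriv_arctan integrable_kap h2 h1, Real.arctan_zero]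
  ring

lemma lintegral_kap : ∫⁻ w, ENNReal.ofReal (kap w) = ENNReal.ofReal Real.pi := by
  rw [← integral_kap, ofReal_integral_eq_lintegral_ofReal integrable_kap
    (ae_of_all _ fun w => (kap_pos w).le)]

lemma kap_tail {ε : ℝ} (hε : 0 < ε) :
    ∃ ρ : ℝ, 0 < ρ ∧ ∫⁻ w, ENNReal.ofReal (if |w| ≤ ρ then 0 else kap w) ≤ ENNReal.ofReal ε := by
  have key : Tendsto (fun n : ℕ => ∫⁻ w, ENNReal.ofReal (if |w| ≤ (n : ℝ) then 0 else kap w))
      atTop (𝓝 (∫⁻ _ : ℝ, 0)) := by
    apply tendsto_lintegral_of_dominated_convergence (fun w => ENNReal.ofReal (kap w))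
    · intro n
      apply Measurable.ennreal_ofReal
      apply Measurable.ite _ measurable_const kap_continuous.measurable
      exact measurableSet_le (by fun_prop) measurable_const
    · intro n
      refine ae_of_all _ fun w => ?_
      apply ENNReal.ofReal_le_ofReal
      split_ifs
      · exact (kap_pos w).le
      · exact le_rfl
    · rw [lintegral_kap]; exact ENNReal.ofReal_ne_top
    · refine ae_of_all _ fun w => ?_
      apply tendsto_const_nhds.congr'
      obtain ⟨N, hN⟩ := exists_nat_ge |w|
      filter_upwards [eventually_ge_atTop N] with n hn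
      have : |w| ≤ (n : ℝ) := hN.trans (by exact_mod_cast hn)
      rw [if_pos this, ENNReal.ofReal_zero]
  rw [lintegral_zero] at key
  have hev := key.eventually (Iic_mem_nhds (show (0 : ℝ≥0∞) < ENNReal.ofReal ε by
    rwa [ENNReal.ofReal_pos]))
  obtain ⟨n, hn, hn1⟩ := (hev.and (eventually_ge_atTop 1)).exists
  exact ⟨n, by exact_mod_cast hn1, hn⟩

end Pool.Agent.R264.HI
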