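import Pool.Agent.R264.HI.Defs

/-! The logarithmic change of variables. -/

set_option autoImplicit false

namespace Pool.Agent.R264.HI

open MeasureTheory Set
open scoped ENNReal NNReal

theorem lint_exp (h : ℝ → ℝ≥0∞) :
    ∫⁻ x in Ioi (0 : ℝ), h x = ∫⁻ u, ENNReal.ofReal (Real.exp u) * h (Real.exp u) := by
  have := lintegral_image_eq_lintegral_abs_deriv_mul (s := univ) (f := Real.exp)
    (f' := Real.exp) MeasurableSet.univ
    (fun x _ => (Real.hasDerivAt_exp x).hasDerivWithinAt) Real.exp_injective.injOn h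
  rw [image_univ, Real.range_exp, Measure.restrict_univ] at this
  rw [this]
  refine lintegral_congr fun u => ?_
  rw [abs_of_pos (Real.exp_pos u)]

theorem kap_pos (w : ℝ) : 0 < kap w := by
  unfold kap; positivity

theorem ker_eq (u v : ℝ) :
    Real.exp u * Real.exp v * (Real.exp u + Real.exp v) ^ (-(1 / 2) : ℝ) =
      Real.exp (3 * u / 4) * Real.exp (3 * v / 4) * √(kap (u - v)) := by
  have hk := kap_pos (u - v)
  have h1 : Real.exp u + Real.exp v = Real.exp ((u + v) / 2) * (kap (u - v))⁻¹ := by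
    unfold kap
    rw [one_div, inv_inv, mul_add, ← Real.exp_add, ← Real.exp_add]
    congr 2 <;> ring
  have h2 : (kap (u - v))⁻¹ ^ (-(1 / 2) : ℝ) = √(kap (u - v)) := by
    rw [Real.inv_rpow hk.le, Real.rpow_neg hk.le, inv_inv, Real.sqrt_eq_rpow]
  rw [h1, Real.mul_rpow (Real.exp_pos _).le (inv_nonneg.2 hk.le), h2, ← Real.exp_mul,
    ← mul_assoc, ← Real.exp_add, ← Real.exp_add, ← Real.exp_add]
  congr 2
  ring

theorem kerI_eq (u v : ℝ) :
    ENNReal.ofReal (Real.exp u) * (ENNReal.ofReal (Real.exp v) * kerI (Real.exp u) (Real.exp v)) =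
      ENNReal.ofReal (Real.exp (3 * u / 4)) * (ENNReal.ofReal (Real.exp (3 * v / 4)) *
        ENNReal.ofReal (√(kap (u - v)))) := by
  unfold kerI
  rw [← ENNReal.ofReal_mul (Real.exp_pos v).le, ← ENNReal.ofReal_mul (Real.exp_pos u).le,
    ← ENNReal.ofReal_mul (Real.exp_pos _).le, ← ENNReal.ofReal_mul (Real.exp_pos _).le,
    ← mul_assoc, ker_eq, mul_assoc]

theorem formI_log (f g : ℝ → ℝ≥0) :
    formI f g = ∫⁻ u, ∫⁻ v, (ENNReal.ofReal (Real.exp (3 * u / 4)) * f (Real.exp u)) *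
      (ENNReal.ofReal (Real.exp (3 * v / 4)) * g (Real.exp v)) *
        ENNReal.ofReal (√(kap (u - v))) := by
  unfold formI
  rw [lint_exp]
  refine lintegral_congr fun u => ?_
  rw [lint_exp, ← lintegral_const_mul' _ _ ENNReal.ofReal_ne_top]
  refine lintegral_congr fun v => ?_
  calc _ = (ENNReal.ofReal (Real.exp u) * (ENNReal.ofReal (Real.exp v) *
        kerI (Real.exp u) (Real.exp v))) * (f (Real.exp u) * g (Real.exp v)) := by ring
    _ = _ := by rw [kerI_eq]; ring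

theorem formI_zero_left (f g : ℝ → ℝ≥0) (hf : Measurable f) (h : normI f = 0) :
    formI f g = 0 := by
  unfold normI at h
  rw [ENNReal.rpow_eq_zero_iff] at h
  have h0 : ∫⁻ x in Ioi (0 : ℝ), (f x : ℝ≥0∞) ^ (4 / 3 : ℝ) = 0 := by
    rcases h with h | h
    · exact h.1
    · exact absurd h.2 (by norm_num)
  rw [lintegral_eq_zero_iff (hf.coe_nnreal_ennreal.pow_const _)] at h0
  unfold formI
  refine lintegral_eq_zero_of_ae_eq_zero ?_
  filter_upwards [h0] with x hx
  have hx0 : (f x : ℝ≥0∞) = 0 := by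
    have : (f x : ℝ≥0∞) ^ (4 / 3 : ℝ) = 0 := hx
    rw [ENNReal.rpow_eq_zero_iff] at this
    rcases this with h | h
    · exact h.1
    · exact absurd h.2 (by norm_num)
  simp [hx0]

theorem formI_zero_right (f g : ℝ → ℝ≥0) (hg : Measurable g) (h : normI g = 0) :
    formI f g = 0 := by
  unfold normI at h
  rw [ENNReal.rpow_eq_zero_iff] at h
  have h0 : ∫⁻ x in Ioi (0 : ℝ), (g x : ℝ≥0∞) ^ (4 / 3 : ℝ) = 0 := by
    rcases h with h | h
    · exact h.1
    · exact absurd h.2 (by norm_num)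
  rw [lintegral_eq_zero_iff (hg.coe_nnreal_ennreal.pow_const _)] at h0
  unfold formI
  refine lintegral_eq_zero_of_ae_eq_zero (Filter.Eventually.of_forall fun x => ?_)
  refine lintegral_eq_zero_of_ae_eq_zero ?_
  filter_upwards [h0] with y hy
  have hy0 : (g y : ℝ≥0∞) = 0 := by
    have : (g y : ℝ≥0∞) ^ (4 / 3 : ℝ) = 0 := hy
    rw [ENNReal.rpow_eq_zero_iff] at this
    rcases this with h | h
    · exact h.1
    · exact absurd h.2 (by norm_num)
  simp [hy0]

/-- the normalised function in logarithmic coordinates -/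
noncomputable def lg (f : ℝ → ℝ≥0) (u : ℝ) : ℝ≥0 :=
  Real.toNNReal (Real.exp (3 * u / 4)) * f (Real.exp u) * (normI f).toNNReal⁻¹

theorem measurable_lg (f : ℝ → ℝ≥0) (hf : Measurable f) : Measurable (lg f) := by
  unfold lg
  have h1 : Measurable fun u : ℝ => Real.toNNReal (Real.exp (3 * u / 4)) := by
    apply Measurable.real_toNNReal
    exact Real.measurable_exp.comp ((measurable_id.const_mul 3).div_const 4)
  exact (h1.mul (hf.comp Real.measurable_exp)).mul_const _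

theorem coe_lg (f : ℝ → ℝ≥0) (h0 : normI f ≠ 0) (ht : normI f ≠ ∞) (u : ℝ) :
    (lg f u : ℝ≥0∞) = ENNReal.ofReal (Real.exp (3 * u / 4)) * f (Real.exp u) * (normI f)⁻¹ := by
  have h1 : (normI f).toNNReal ≠ 0 := by
    intro h
    rcases (ENNReal.toNNReal_eq_zero_iff _).1 h with h | h
    · exact h0 h
    · exact ht h
  unfold lg
  rw [ENNReal.coe_mul, ENNReal.coe_mul, ENNReal.coe_inv h1, ENNReal.coe_toNNReal ht]
  rfl

theorem lg_norm (f : ℝ → ℝ≥0) (h0 : normI f ≠ 0) (ht : normI f ≠ ∞) :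
    ∫⁻ u, (lg f u : ℝ≥0∞) ^ (4 / 3 : ℝ) = 1 := by
  set A : ℝ≥0∞ := ∫⁻ x in Ioi (0 : ℝ), (f x : ℝ≥0∞) ^ (4 / 3 : ℝ) with hA
  have hnA : normI f = A ^ (3 / 4 : ℝ) := rfl
  have h1 : (normI f) ^ (4 / 3 : ℝ) = A := by
    rw [hnA, ← ENNReal.rpow_mul]
    norm_num
  have hA0 : A ≠ 0 := by
    intro h
    apply h0
    rw [hnA, h]
    exact ENNReal.zero_rpow_of_pos (by norm_num)
  have hAt : A ≠ ∞ := by
    intro h
    apply ht
    rw [hnA, h]
    exact ENNReal.top_rpow_of_pos (by norm_num)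
  have h2 : ∀ u, (lg f u : ℝ≥0∞) ^ (4 / 3 : ℝ) =
      A⁻¹ * (ENNReal.ofReal (Real.exp u) * (f (Real.exp u) : ℝ≥0∞) ^ (4 / 3 : ℝ)) := by
    intro u
    rw [coe_lg f h0 ht, ENNReal.mul_rpow_of_nonneg _ _ (by norm_num),
      ENNReal.mul_rpow_of_nonneg _ _ (by norm_num), ENNReal.inv_rpow, h1,
      ENNReal.ofReal_rpow_of_pos (Real.exp_pos _), ← Real.exp_mul]
    have : 3 * u / 4 * (4 / 3) = u := by ring
    rw [this]
    ring
  simp_rw [h2]
  rw [lintegral_const_mul' _ _ (ENNReal.inv_ne_top.2 hA0), ← lint_exp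
    (fun x => (f x : ℝ≥0∞) ^ (4 / 3 : ℝ))]
  exact ENNReal.inv_mul_cancel hA0 hAt

theorem t_LOG : S_LOG := by
  intro c hc hHL f g hf hg hft hgt
  by_cases hf0 : normI f = 0
  · rw [formI_zero_left f g hf hf0]; exact bot_le
  by_cases hg0 : normI g = 0
  · rw [formI_zero_right f g hg hg0]; exact bot_le
  have key := hHL (lg f) (lg g) (measurable_lg f hf) (measurable_lg g hg)
    (lg_norm f hf0 hft) (lg_norm g hg0 hgt)
  have e1 : ∫⁻ u, ∫⁻ v, (lg f u : ℝ≥0∞) * (lg g v : ℝ≥0∞) * ENNReal.ofReal (√(kap (u - v))) =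
      (normI f)⁻¹ * (normI g)⁻¹ * formI f g := by
    rw [formI_log, ← lintegral_const_mul' _ _ (ENNReal.mul_ne_top (ENNReal.inv_ne_top.2 hf0)
      (ENNReal.inv_ne_top.2 hg0))]
    refine lintegral_congr fun u => ?_
    rw [← lintegral_const_mul' _ _ (ENNReal.mul_ne_top (ENNReal.inv_ne_top.2 hf0)
      (ENNReal.inv_ne_top.2 hg0))]
    refine lintegral_congr fun v => ?_
    rw [coe_lg f hf0 hft, coe_lg g hg0 hgt]
    ring
  rw [e1] at key
  calc formI f g = (normI f * (normI f)⁻¹) * (normI g * (normI g)⁻¹) * formI f g := by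
        rw [ENNReal.mul_inv_cancel hf0 hft, ENNReal.mul_inv_cancel hg0 hgt, one_mul, one_mul]
    _ = normI f * normI g * ((normI f)⁻¹ * (normI g)⁻¹ * formI f g) := by ring
    _ ≤ normI f * normI g * ENNReal.ofReal c := by gcongr
    _ = ENNReal.ofReal c * normI f * normI g := by ring

end Pool.Agent.R264.HI
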