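import Pool.Agent.R264.HI.LowStm

set_option autoImplicit false

namespace Pool.Agent.R264.HI

open MeasureTheory Set Filter Topology
open scoped ENNReal NNReal

namespace Low

lemma lint {g g' : ℝ → ℝ} {a l : ℝ} (hc : ContinuousWithinAt g (Ici a) a)
    (hd : ∀ x ∈ Ioi a, HasDerivAt g (g' x) x) (hn : ∀ x ∈ Ioi a, 0 ≤ g' x)
    (hl : Tendsto g atTop (𝓝 l)) :
    ∫⁻ x in Ioi a, ENNReal.ofReal (g' x) = ENNReal.ofReal (l - g a) := by
  rw [← integral_Ioi_of_hasDerivAt_of_nonneg hc hd hn hl,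
    ofReal_integral_eq_lintegral_ofReal (integrableOn_Ioi_deriv_of_nonneg hc hd hn hl)]
  exact (ae_restrict_iff' measurableSet_Ioi).2 (Eventually.of_forall hn)

/-- the test function -/
noncomputable def f (x : ℝ) : ℝ≥0 := Real.toNNReal ((1 + x) ^ (-(3 / 2) : ℝ))

lemma f_meas : Measurable f := by
  unfold f
  fun_prop

lemma f_coe (x : ℝ) : (f x : ℝ≥0∞) = ENNReal.ofReal ((1 + x) ^ (-(3 / 2) : ℝ)) := rfl

lemma rp32 {x : ℝ} (hx : 0 < 1 + x) : (1 + x) ^ (-(3 / 2) : ℝ) = 1 / ((1 + x) * √(1 + x)) := by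
  rw [Real.rpow_neg hx.le, one_div]
  congr 1
  rw [show (3 / 2 : ℝ) = 1 + 1 / 2 by norm_num, Real.rpow_add hx, Real.rpow_one,
    ← Real.sqrt_eq_rpow]

lemma rp12 {x : ℝ} (hx : 0 < x) : x ^ (-(1 / 2) : ℝ) = 1 / √x := by
  rw [Real.rpow_neg hx.le, ← Real.sqrt_eq_rpow, ← one_div]

lemma norm_f : normI f = 1 := by
  have h1 : ∫⁻ x in Ioi (0 : ℝ), (f x : ℝ≥0∞) ^ (4 / 3 : ℝ) =
      ∫⁻ x in Ioi (0 : ℝ), ENNReal.ofReal (((1 + x) ^ 2)⁻¹) := by
    refine setLIntegral_congr_fun measurableSet_Ioi fun x hx => ?_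
    have hx1 : (0 : ℝ) < 1 + x := by have := mem_Ioi.1 hx; linarith
    rw [f_coe, ENNReal.ofReal_rpow_of_nonneg (by positivity) (by norm_num)]
    congr 1
    rw [← Real.rpow_mul hx1.le, show (-(3 / 2) : ℝ) * (4 / 3) = -(2 : ℕ) by norm_num,
      Real.rpow_neg hx1.le, Real.rpow_natCast]
  have h2 : ∫⁻ x in Ioi (0 : ℝ), ENNReal.ofReal (((1 + x) ^ 2)⁻¹) = 1 := by
    have h3 := lint (g := fun x : ℝ => -(1 + x)⁻¹) (g' := fun x : ℝ => ((1 + x) ^ 2)⁻¹) (a := 0)
      (l := 0) ?_ ?_ ?_ ?_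
    · rw [h3]; norm_num
    · refine ContinuousAt.continuousWithinAt ?_
      refine (ContinuousAt.inv₀ (by fun_prop) (by norm_num)).neg
    · intro x hx
      have hx1 : (1 + x : ℝ) ≠ 0 := by have := mem_Ioi.1 hx; positivity
      have h4 := (((hasDerivAt_id x).const_add 1).fun_inv hx1).neg
      refine h4.congr_deriv ?_
      simp only [id]
      field_simp
    · intro x hx
      positivity
    · have h5 : Tendsto (fun x : ℝ => 1 + x) atTop atTop := tendsto_atTop_add_const_left _ _ tendsto_id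
      have := (tendsto_inv_atTop_zero.comp h5).neg
      simpa using this
  rw [normI, h1, h2, ENNReal.one_rpow]

/-- the inner integral -/
lemma inner_f {x : ℝ} (hx : 0 < x) (hx1 : x ≠ 1) :
    ∫⁻ y in Ioi (0 : ℝ), ENNReal.ofReal ((1 + y) ^ (-(3 / 2) : ℝ) * (x + y) ^ (-(1 / 2) : ℝ)) =
      ENNReal.ofReal (2 / (1 + √x)) := by
  have h1x : 1 - x ≠ 0 := sub_ne_zero.2 hx1.symm
  have h3 := lint (g := fun y : ℝ => (2 / (1 - x)) * √((x + y) / (1 + y)))
    (g' := fun y : ℝ => (1 + y) ^ (-(3 / 2) : ℝ) * (x + y) ^ (-(1 / 2) : ℝ)) (a := 0)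
    (l := 2 / (1 - x)) ?_ ?_ ?_ ?_
  · rw [h3]
    congr 1
    have hs := Real.sq_sqrt hx.le
    have hs0 := Real.sqrt_nonneg x
    have hs1 : 1 + √x ≠ 0 := by positivity
    simp only [add_zero, div_one]
    field_simp
    nlinarith
  · refine ContinuousAt.continuousWithinAt ?_
    refine continuousAt_const.mul (Real.continuous_sqrt.continuousAt.comp ?_)
    exact ContinuousAt.div (by fun_prop) (by fun_prop) (by norm_num)
  · intro y hy
    have hy0 : 0 < y := hy
    have h1y : (0 : ℝ) < 1 + y := by linarith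
    have hxy : 0 < x + y := by linarith
    have h4 : HasDerivAt (fun y : ℝ => (x + y) / (1 + y))
        ((1 * (1 + y) - (x + y) * 1) / (1 + y) ^ 2) y :=
      ((hasDerivAt_id y).const_add x).fun_div ((hasDerivAt_id y).const_add 1) h1y.ne'
    have hq : 0 < (x + y) / (1 + y) := by positivity
    have h5 := (h4.sqrt hq.ne').const_mul (2 / (1 - x))
    refine h5.congr_deriv ?_
    rw [rp32 h1y, rp12 hxy, Real.sqrt_div hxy.le]
    have ha : 0 < √(1 + y) := Real.sqrt_pos.2 h1y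
    have hb : 0 < √(x + y) := Real.sqrt_pos.2 hxy
    have ha2 : √(1 + y) * √(1 + y) = 1 + y := Real.mul_self_sqrt h1y.le
    have e1 : (1 * (1 + y) - (x + y) * 1) = 1 - x := by ring
    rw [e1]
    generalize √(1 + y) = A at *
    generalize √(x + y) = B at *
    rw [← ha2]
    field_simp
  · intro y hy
    have hy0 : 0 < y := hy
    positivity
  · have h6 : Tendsto (fun y : ℝ => (x + y) / (1 + y)) atTop (𝓝 1) := by
      have h7 : Tendsto (fun y : ℝ => 1 + (x - 1) * (1 + y)⁻¹) atTop (𝓝 (1 + (x - 1) * 0)) := by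
        have h5 : Tendsto (fun x : ℝ => 1 + x) atTop atTop :=
          tendsto_atTop_add_const_left _ _ tendsto_id
        exact ((tendsto_inv_atTop_zero.comp h5).const_mul _).const_add _
      rw [mul_zero, add_zero] at h7
      refine h7.congr' ?_
      filter_upwards [eventually_gt_atTop 0] with y hy
      have : (1 + y : ℝ) ≠ 0 := by positivity
      field_simp
      ring
    have h8 := ((Real.continuous_sqrt.tendsto 1).comp h6).const_mul (2 / (1 - x))
    rw [Real.sqrt_one, mul_one] at h8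
    exact h8

/-- antiderivative of the outer integrand, in the variable `s = √x` -/
noncomputable def Phi (s : ℝ) : ℝ :=
  2 * ((s - 1) / √(1 + s ^ 2)) + √2 * Real.arsinh ((1 - s) / (1 + s))

lemma Phi_deriv {s : ℝ} (hs : 0 < s) :
    HasDerivAt Phi (4 * s / ((1 + s ^ 2) * √(1 + s ^ 2) * (1 + s))) s := by
  have h1 : (0 : ℝ) < 1 + s ^ 2 := by positivity
  have h1s : (0 : ℝ) < 1 + s := by linarith
  have hR : 0 < √(1 + s ^ 2) := Real.sqrt_pos.2 h1
  have hR2 : √(1 + s ^ 2) ^ 2 = 1 + s ^ 2 := Real.sq_sqrt h1.le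
  have d0 : HasDerivAt (fun s : ℝ => 1 + s ^ 2) (2 * s) s := by
    have := ((hasDerivAt_id s).fun_pow 2).const_add 1
    refine this.congr_deriv ?_
    simp
  have d1 : HasDerivAt (fun s : ℝ => √(1 + s ^ 2)) (2 * s / (2 * √(1 + s ^ 2))) s :=
    d0.sqrt h1.ne'
  have d2 : HasDerivAt (fun s : ℝ => (s - 1) / √(1 + s ^ 2))
      ((1 * √(1 + s ^ 2) - (s - 1) * (2 * s / (2 * √(1 + s ^ 2)))) / √(1 + s ^ 2) ^ 2) s :=
    ((hasDerivAt_id s).sub_const 1).fun_div d1 hR.ne'
  have d3 : HasDerivAt (fun s : ℝ => (1 - s) / (1 + s))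
      ((-1 * (1 + s) - (1 - s) * 1) / (1 + s) ^ 2) s :=
    ((hasDerivAt_id s).const_sub 1).fun_div ((hasDerivAt_id s).const_add 1) h1s.ne'
  have d4 := d3.arsinh
  have d5 := (d2.const_mul 2).add (d4.const_mul √2)
  refine d5.congr_deriv ?_
  have h2 : 1 + ((1 - s) / (1 + s)) ^ 2 = 2 * (1 + s ^ 2) / (1 + s) ^ 2 := by
    field_simp
    ring
  have h3 : √(1 + ((1 - s) / (1 + s)) ^ 2) = √2 * √(1 + s ^ 2) / (1 + s) := by
    rw [h2, Real.sqrt_div (by positivity), Real.sqrt_mul (by norm_num), Real.sqrt_sq h1s.le]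
  rw [h3, smul_eq_mul]
  have h22 : √2 ≠ 0 := by positivity
  have hR2' : 1 + s ^ 2 = √(1 + s ^ 2) ^ 2 := hR2.symm
  generalize √(1 + s ^ 2) = R at *
  rw [hR2']
  field_simp
  have h9 : R ^ 2 = 1 + s ^ 2 := hR2
  linear_combination (2 * s) * h9

lemma Phi_lim : Tendsto Phi atTop (𝓝 (2 - √2 * Real.arsinh 1)) := by
  have hc : Tendsto (fun u : ℝ => 2 * ((1 - u) / √(1 + u ^ 2)) +
      √2 * Real.arsinh ((u - 1) / (u + 1))) (𝓝 0)
      (𝓝 (2 * ((1 - 0) / √(1 + 0 ^ 2)) + √2 * Real.arsinh ((0 - 1) / (0 + 1)))) := by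
    refine ContinuousAt.tendsto (f := fun u : ℝ => 2 * ((1 - u) / √(1 + u ^ 2)) +
      √2 * Real.arsinh ((u - 1) / (u + 1))) ?_
    refine ContinuousAt.add ?_ ?_
    · refine continuousAt_const.mul (ContinuousAt.div (by fun_prop) (by fun_prop) ?_)
      norm_num
    · refine continuousAt_const.mul (Real.continuous_arsinh.continuousAt.comp ?_)
      exact ContinuousAt.div (by fun_prop) (by fun_prop) (by norm_num)
  have h1 := hc.comp tendsto_inv_atTop_zero
  have h2 : 2 * ((1 - 0) / √(1 + 0 ^ 2)) + √2 * Real.arsinh ((0 - 1) / (0 + 1)) =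
      2 - √2 * Real.arsinh 1 := by
    norm_num [Real.arsinh_neg]
    ring
  rw [h2] at h1
  refine h1.congr' ?_
  filter_upwards [eventually_gt_atTop 0] with s hs
  simp only [Function.comp_apply, Phi]
  have h3 : √(1 + (s⁻¹) ^ 2) = √(1 + s ^ 2) / s := by
    have h4 : 1 + (s⁻¹) ^ 2 = (1 + s ^ 2) / s ^ 2 := by
      field_simp
      ring
    rw [h4, Real.sqrt_div (by positivity), Real.sqrt_sq hs.le]
  have h5 : (1 - s⁻¹) / √(1 + (s⁻¹) ^ 2) = (s - 1) / √(1 + s ^ 2) := by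
    rw [h3]
    have : √(1 + s ^ 2) ≠ 0 := by positivity
    field_simp
  have h6 : (s⁻¹ - 1) / (s⁻¹ + 1) = (1 - s) / (1 + s) := by
    have : (1 + s : ℝ) ≠ 0 := by positivity
    have : (s⁻¹ + 1 : ℝ) ≠ 0 := by positivity
    field_simp
  rw [h5, h6]

lemma outer :
    ∫⁻ x in Ioi (0 : ℝ), ENNReal.ofReal ((1 + x) ^ (-(3 / 2) : ℝ) * (2 / (1 + √x))) =
      ENNReal.ofReal (4 - 2 * √2 * Real.arsinh 1) := by
  have h3 := lint (g := fun x : ℝ => Phi (√x))
    (g' := fun x : ℝ => (1 + x) ^ (-(3 / 2) : ℝ) * (2 / (1 + √x))) (a := 0)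
    (l := 2 - √2 * Real.arsinh 1) ?_ ?_ ?_ ?_
  · rw [h3]
    congr 1
    simp only [Real.sqrt_zero, Phi]
    norm_num
    ring
  · refine ContinuousAt.continuousWithinAt ?_
    have h1 : ContinuousAt Phi (√0) := by
      unfold Phi
      rw [Real.sqrt_zero]
      refine ContinuousAt.add ?_ ?_
      · refine continuousAt_const.mul (ContinuousAt.div (by fun_prop) (by fun_prop) ?_)
        norm_num
      · refine continuousAt_const.mul (Real.continuous_arsinh.continuousAt.comp ?_)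
        exact ContinuousAt.div (by fun_prop) (by fun_prop) (by norm_num)
    exact ContinuousAt.comp (g := Phi) (f := fun x => √x) h1 Real.continuous_sqrt.continuousAt
  · intro x hx
    have hx0 : 0 < x := hx
    have hs : 0 < √x := Real.sqrt_pos.2 hx0
    have h1 := (Phi_deriv hs).comp x ((hasDerivAt_id x).sqrt hx0.ne')
    refine h1.congr_deriv ?_
    have h1x : (0 : ℝ) < 1 + x := by linarith
    rw [rp32 h1x, Real.sq_sqrt hx0.le]
    have hA : 0 < √(1 + x) := Real.sqrt_pos.2 h1x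
    simp only [id]
    field_simp
    ring
  · intro x hx
    have hx0 : 0 < x := hx
    positivity
  · exact Phi_lim.comp Real.tendsto_sqrt_atTop

lemma pos : 0 < 4 - 2 * √2 * Real.arsinh 1 := by
  have h1 : Real.arsinh 1 ≤ 1 := by
    have h2 : (1 : ℝ) ≤ Real.sinh 1 := Real.self_le_sinh_iff.2 zero_le_one
    calc Real.arsinh 1 ≤ Real.arsinh (Real.sinh 1) := Real.arsinh_le_arsinh.2 h2
      _ = 1 := Real.arsinh_sinh 1
  have h3 : √2 < 2 := by
    rw [Real.sqrt_lt' (by norm_num)]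
    norm_num
  have h4 : 0 ≤ √2 := Real.sqrt_nonneg 2
  nlinarith

end Low

open Low in
theorem t_LOW : S_LOW := by
  intro C hC
  have h1 := hC f f f_meas f_meas (by rw [norm_f]; simp) (by rw [norm_f]; simp)
  rw [norm_f, mul_one, mul_one] at h1
  have h2 : ENNReal.ofReal (4 - 2 * √2 * Real.arsinh 1) ≤ formI f f := by
    rw [← outer]
    unfold formI
    refine lintegral_mono_ae ?_
    have hne : ∀ᵐ x ∂(volume.restrict (Ioi (0 : ℝ))), x ≠ 1 :=
      ae_restrict_of_ae (Measure.ae_ne volume 1)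
    filter_upwards [hne, ae_restrict_mem measurableSet_Ioi] with x hx1 hx
    have hx0 : 0 < x := hx
    have h1x : (0 : ℝ) < 1 + x := by linarith
    rw [ENNReal.ofReal_mul (by positivity), ← inner_f hx0 hx1,
      ← lintegral_const_mul' _ _ ENNReal.ofReal_ne_top]
    refine (setLIntegral_congr_fun measurableSet_Ioi fun y hy => ?_).le
    have hy0 : 0 < y := hy
    rw [f_coe, f_coe, kerI, ENNReal.ofReal_mul (by positivity), mul_assoc]
  have h3 := h2.trans h1
  rcases ENNReal.ofReal_le_ofReal_iff'.1 h3 with h | h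
  · exact h
  · exact absurd pos (not_lt.2 h)

end Pool.Agent.R264.HI
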