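import Pool.Agent.R264.HI.Kap

namespace Pool.Agent.R264.HI

open MeasureTheory Set Filter Topology
open scoped ENNReal NNReal

lemma conv_left {W P : ℝ → ℝ≥0∞} (hW : Measurable W) (hP : Measurable P) :
    ∫⁻ u, ∫⁻ v, W (u - v) * P u = (∫⁻ w, W w) * ∫⁻ u, P u := by
  have h1 : ∀ u, ∫⁻ v, W (u - v) * P u = (∫⁻ w, W w) * P u := by
    intro u
    rw [lintegral_mul_const _ (by fun_prop), lintegral_sub_left_eq_self W u]
  simp_rw [h1]
  rw [lintegral_const_mul _ hP]

lemma conv_right {W P : ℝ → ℝ≥0∞} (hW : Measurable W) (hP : Measurable P) :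
    ∫⁻ u, ∫⁻ v, W (u - v) * P v = (∫⁻ w, W w) * ∫⁻ v, P v := by
  rw [lintegral_lintegral_swap (by fun_prop)]
  have h1 : ∀ v, ∫⁻ u, W (u - v) * P v = (∫⁻ w, W w) * P v := by
    intro v
    rw [lintegral_mul_const _ (by fun_prop), lintegral_sub_right_eq_self W v]
  simp_rw [h1]
  rw [lintegral_const_mul _ hP]

section

variable {φ γ : ℝ → ℝ} (hφ : Measurable φ) (hγ : Measurable γ)
  (hφ0 : ∀ u, 0 ≤ φ u) (hγ0 : ∀ u, 0 ≤ γ u)
  (hφ1 : ∫⁻ u, ENNReal.ofReal (φ u ^ 2) = 1) (hγ1 : ∫⁻ u, ENNReal.ofReal (γ u ^ 2) = 1)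

include hφ hγ hφ0 hγ0 hφ1 hγ1

/-- Schur's test. -/
lemma schur {W : ℝ → ℝ} (hW : Measurable W) (hW0 : ∀ w, 0 ≤ W w) :
    ∫⁻ u, ∫⁻ v, ENNReal.ofReal (W (u - v) * (φ u * γ v)) ≤ ∫⁻ w, ENNReal.ofReal (W w) := by
  have h1 : ∀ u v, ENNReal.ofReal (W (u - v) * (φ u * γ v)) ≤
      ENNReal.ofReal (W (u - v)) * (2⁻¹ * ENNReal.ofReal (φ u ^ 2)) +
      ENNReal.ofReal (W (u - v)) * (2⁻¹ * ENNReal.ofReal (γ v ^ 2)) := by
    intro u v
    have h2 : (2⁻¹ : ℝ≥0∞) = ENNReal.ofReal (1 / 2) := by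
      rw [one_div, ENNReal.ofReal_inv_of_pos (by norm_num)]; norm_num
    have h3 : ∀ t : ℝ, ENNReal.ofReal (W (u - v)) * (ENNReal.ofReal (1 / 2) * ENNReal.ofReal t) =
        ENNReal.ofReal (W (u - v) * (1 / 2 * t)) := by
      intro t
      rw [ENNReal.ofReal_mul (hW0 _), ENNReal.ofReal_mul (by norm_num)]
    rw [h2, h3, h3,
      ← ENNReal.ofReal_add (mul_nonneg (hW0 _) (by positivity)) (mul_nonneg (hW0 _) (by positivity)),
      ← mul_add]
    apply ENNReal.ofReal_le_ofReal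
    apply mul_le_mul_of_nonneg_left _ (hW0 _)
    nlinarith [sq_nonneg (φ u - γ v)]
  calc ∫⁻ u, ∫⁻ v, ENNReal.ofReal (W (u - v) * (φ u * γ v))
      ≤ ∫⁻ u, ∫⁻ v, (ENNReal.ofReal (W (u - v)) * (2⁻¹ * ENNReal.ofReal (φ u ^ 2)) +
      ENNReal.ofReal (W (u - v)) * (2⁻¹ * ENNReal.ofReal (γ v ^ 2))) :=
        lintegral_mono fun u => lintegral_mono fun v => h1 u v
    _ = (∫⁻ u, ∫⁻ v, ENNReal.ofReal (W (u - v)) * (2⁻¹ * ENNReal.ofReal (φ u ^ 2))) +
        ∫⁻ u, ∫⁻ v, ENNReal.ofReal (W (u - v)) * (2⁻¹ * ENNReal.ofReal (γ v ^ 2)) := by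
        rw [← lintegral_add_left]
        · congr 1; ext u
          rw [lintegral_add_left (by fun_prop)]
        · apply Measurable.lintegral_prod_right'
            (f := fun z : ℝ × ℝ => ENNReal.ofReal (W (z.1 - z.2)) * (2⁻¹ * ENNReal.ofReal (φ z.1 ^ 2)))
          fun_prop
    _ = ∫⁻ w, ENNReal.ofReal (W w) := by
        have e1 := conv_left (W := fun w => ENNReal.ofReal (W w))
          (P := fun u => 2⁻¹ * ENNReal.ofReal (φ u ^ 2)) (by fun_prop) (by fun_prop)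
        have e2 := conv_right (W := fun w => ENNReal.ofReal (W w))
          (P := fun u => 2⁻¹ * ENNReal.ofReal (γ u ^ 2)) (by fun_prop) (by fun_prop)
        rw [e1, e2, lintegral_const_mul _ (by fun_prop), lintegral_const_mul _ (by fun_prop), hφ1,
          hγ1, ← mul_add, mul_one, ENNReal.inv_two_add_inv_two, mul_one]

/-- The defect identity. -/
lemma defect :
    (∫⁻ u, ∫⁻ v, ENNReal.ofReal (kap (u - v) * (φ u - γ v) ^ 2)) +
      2 * (∫⁻ u, ∫⁻ v, ENNReal.ofReal (kap (u - v) * (φ u * γ v))) =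
      ENNReal.ofReal (2 * Real.pi) := by
  have hk := kap_continuous.measurable
  have h1 : ∀ u v, ENNReal.ofReal (kap (u - v) * (φ u - γ v) ^ 2) +
      2 * ENNReal.ofReal (kap (u - v) * (φ u * γ v)) =
      ENNReal.ofReal (kap (u - v)) * ENNReal.ofReal (φ u ^ 2) +
      ENNReal.ofReal (kap (u - v)) * ENNReal.ofReal (γ v ^ 2) := by
    intro u v
    have hk0 := (kap_pos (u - v)).le
    have hp := mul_nonneg (hφ0 u) (hγ0 v)
    have h2 : (2 : ℝ≥0∞) = ENNReal.ofReal 2 := by norm_num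
    rw [h2, ← ENNReal.ofReal_mul (by norm_num), ← ENNReal.ofReal_mul hk0,
      ← ENNReal.ofReal_mul hk0, ← ENNReal.ofReal_add (by positivity) (by positivity),
      ← ENNReal.ofReal_add (by positivity) (by positivity)]
    congr 1; ring
  have e1 := conv_left (W := fun w => ENNReal.ofReal (kap w))
    (P := fun u => ENNReal.ofReal (φ u ^ 2)) (by fun_prop) (by fun_prop)
  have e2 := conv_right (W := fun w => ENNReal.ofReal (kap w))
    (P := fun u => ENNReal.ofReal (γ u ^ 2)) (by fun_prop) (by fun_prop)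
  rw [hφ1, lintegral_kap, mul_one] at e1
  rw [hγ1, lintegral_kap, mul_one] at e2
  have h3 : ENNReal.ofReal (2 * Real.pi) = ENNReal.ofReal Real.pi + ENNReal.ofReal Real.pi := by
    rw [← ENNReal.ofReal_add Real.pi_pos.le Real.pi_pos.le]; congr 1; ring
  rw [h3]
  nth_rewrite 1 [← e1]
  rw [← e2]
  rw [← lintegral_const_mul _ (by
    apply Measurable.lintegral_prod_right'
      (f := fun z : ℝ × ℝ => ENNReal.ofReal (kap (z.1 - z.2) * (φ z.1 * γ z.2)))
    fun_prop)]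
  rw [← lintegral_add_left (by
    apply Measurable.lintegral_prod_right'
      (f := fun z : ℝ × ℝ => ENNReal.ofReal (kap (z.1 - z.2) * (φ z.1 - γ z.2) ^ 2))
    fun_prop)]
  rw [← lintegral_add_left (by
    apply Measurable.lintegral_prod_right'
      (f := fun z : ℝ × ℝ => ENNReal.ofReal (kap (z.1 - z.2)) * ENNReal.ofReal (φ z.1 ^ 2))
    fun_prop)]
  congr 1; ext u
  rw [← lintegral_const_mul _ (by fun_prop), ← lintegral_add_left (by fun_prop),
    ← lintegral_add_left (by fun_prop)]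
  congr 1; ext v
  exact h1 u v

/-- Shift estimate. -/
lemma shift {T R : ℝ} (hT : 0 ≤ T) (hTR : T ≤ R) :
    ENNReal.ofReal (kap (R + 1)) * ∫⁻ u, ENNReal.ofReal ((φ u - φ (u + T)) ^ 2) ≤
      4 * ∫⁻ u, ∫⁻ v, ENNReal.ofReal (kap (u - v) * (φ u - γ v) ^ 2) := by
  have hk := kap_continuous.measurable
  have hc := (kap_pos (R + 1)).le
  set g1 : ℝ → ℝ≥0∞ := fun u => ∫⁻ v, ENNReal.ofReal (kap (u - v) * (φ u - γ v) ^ 2) with hg1
  have hg1m : Measurable g1 := by
    apply Measurable.lintegral_prod_right'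
      (f := fun z : ℝ × ℝ => ENNReal.ofReal (kap (z.1 - z.2) * (φ z.1 - γ z.2) ^ 2))
    fun_prop
  have h1 : ∀ u, ENNReal.ofReal (kap (R + 1)) * ENNReal.ofReal ((φ u - φ (u + T)) ^ 2) ≤
      2 * g1 u + 2 * g1 (u + T) := by
    intro u
    calc ENNReal.ofReal (kap (R + 1)) * ENNReal.ofReal ((φ u - φ (u + T)) ^ 2)
        = ∫⁻ v in Icc u (u + 1), ENNReal.ofReal (kap (R + 1) * (φ u - φ (u + T)) ^ 2) := by
          rw [setLIntegral_const, Real.volume_Icc, ENNReal.ofReal_mul hc]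
          simp
      _ ≤ ∫⁻ v in Icc u (u + 1), (2 * ENNReal.ofReal (kap (u - v) * (φ u - γ v) ^ 2) +
            2 * ENNReal.ofReal (kap (u + T - v) * (φ (u + T) - γ v) ^ 2)) := by
          apply setLIntegral_mono (by fun_prop)
          intro v hv
          have hv1 := hv.1
          have hv2 := hv.2
          have k1 : kap (R + 1) ≤ kap (u - v) := kap_anti (by rw [abs_le]; constructor <;> linarith)
          have k2 : kap (R + 1) ≤ kap (u + T - v) :=
            kap_anti (by rw [abs_le]; constructor <;> linarith)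
          have h2 : (2 : ℝ≥0∞) = ENNReal.ofReal 2 := by norm_num
          have hk1 := (kap_pos (u - v)).le
          have hk2 := (kap_pos (u + T - v)).le
          rw [h2, ← ENNReal.ofReal_mul (by norm_num), ← ENNReal.ofReal_mul (by norm_num),
            ← ENNReal.ofReal_add (by positivity) (by positivity)]
          apply ENNReal.ofReal_le_ofReal
          have a1 := mul_le_mul_of_nonneg_right k1 (sq_nonneg (φ u - γ v))
          have a2 := mul_le_mul_of_nonneg_right k2 (sq_nonneg (φ (u + T) - γ v))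
          have a3 : kap (R + 1) * (φ u - φ (u + T)) ^ 2 ≤
              kap (R + 1) * (2 * (φ u - γ v) ^ 2 + 2 * (φ (u + T) - γ v) ^ 2) := by
            apply mul_le_mul_of_nonneg_left _ hc
            nlinarith [sq_nonneg ((φ u - γ v) + (φ (u + T) - γ v))]
          nlinarith
      _ ≤ ∫⁻ v, (2 * ENNReal.ofReal (kap (u - v) * (φ u - γ v) ^ 2) +
            2 * ENNReal.ofReal (kap (u + T - v) * (φ (u + T) - γ v) ^ 2)) :=
          setLIntegral_le_lintegral _ _
      _ = 2 * g1 u + 2 * g1 (u + T) := by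
          rw [lintegral_add_left (by fun_prop), lintegral_const_mul _ (by fun_prop),
            lintegral_const_mul _ (by fun_prop)]
  rw [← lintegral_const_mul _ (by fun_prop)]
  calc ∫⁻ u, ENNReal.ofReal (kap (R + 1)) * ENNReal.ofReal ((φ u - φ (u + T)) ^ 2)
      ≤ ∫⁻ u, (2 * g1 u + 2 * g1 (u + T)) := lintegral_mono h1
    _ = 2 * (∫⁻ u, g1 u) + 2 * ∫⁻ u, g1 u := by
        rw [lintegral_add_left (by fun_prop), lintegral_const_mul _ (by fun_prop),
          lintegral_const_mul _ (by fun_prop), lintegral_add_right_eq_self g1 T]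
    _ = 4 * ∫⁻ u, g1 u := by ring

end

/-- The indicator of the window `(-ρ, ρ]`. -/
noncomputable def wd (ρ w : ℝ) : ℝ := if -ρ < w ∧ w ≤ ρ then 1 else 0

lemma wd_nonneg (ρ w : ℝ) : 0 ≤ wd ρ w := by unfold wd; split_ifs <;> norm_num

lemma wd_le_one (ρ w : ℝ) : wd ρ w ≤ 1 := by unfold wd; split_ifs <;> norm_num

lemma wd_measurable (ρ : ℝ) : Measurable (wd ρ) := by
  unfold wd
  apply Measurable.ite _ measurable_const measurable_const
  exact (measurableSet_lt measurable_const measurable_id).inter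
    (measurableSet_le measurable_id measurable_const)

lemma wd_sum {ρ : ℝ} (hρ : 0 < ρ) (N : ℕ) (w : ℝ) :
    ∑ j ∈ Finset.range N, wd ρ (w - 2 * ρ * (j + 1)) ≤ 1 := by
  unfold wd
  rw [Finset.sum_ite, Finset.sum_const_zero, add_zero, Finset.sum_const, nsmul_eq_mul, mul_one]
  have : (Finset.filter (fun j : ℕ => -ρ < w - 2 * ρ * (j + 1) ∧ w - 2 * ρ * (j + 1) ≤ ρ)
      (Finset.range N)).card ≤ 1 := by
    rw [Finset.card_le_one]
    intro i hi j hj
    rw [Finset.mem_filter] at hi hj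
    obtain ⟨-, h1, h2⟩ := hi
    obtain ⟨-, h3, h4⟩ := hj
    have a1 : 2 * ρ * ((i : ℝ) - j) < 2 * ρ * 1 := by nlinarith
    have a2 : 2 * ρ * ((j : ℝ) - i) < 2 * ρ * 1 := by nlinarith
    have b1 := lt_of_mul_lt_mul_left a1 (by positivity)
    have b2 := lt_of_mul_lt_mul_left a2 (by positivity)
    have c1 : (i : ℝ) < j + 1 := by linarith
    have c2 : (j : ℝ) < i + 1 := by linarith
    have d1 : i < j + 1 := by exact_mod_cast c1
    have d2 : j < i + 1 := by exact_mod_cast c2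
    omega
  exact_mod_cast this

section

variable {φ γ : ℝ → ℝ} (hφ : Measurable φ) (hγ : Measurable γ)
  (hφ0 : ∀ u, 0 ≤ φ u) (hγ0 : ∀ u, 0 ≤ γ u)
  (hφ1 : ∫⁻ u, ENNReal.ofReal (φ u ^ 2) = 1) (hγ1 : ∫⁻ u, ENNReal.ofReal (γ u ^ 2) = 1)

include hφ hγ hφ0 hγ0 hφ1 hγ1

/-- If the defect is small, no window of length `2ρ` carries more than `1/9` of the mass. -/
lemma window {ρ : ℝ} (hρ : 0 < ρ)
    (hD : ∫⁻ u, ∫⁻ v, ENNReal.ofReal (kap (u - v) * (φ u - γ v) ^ 2) ≤
      ENNReal.ofReal (kap (72 * ρ + 1) / 144)) (v0 : ℝ) :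
    ∫⁻ u, ENNReal.ofReal (wd ρ (u - v0) * φ u ^ 2) ≤ ENNReal.ofReal (1 / 9) := by
  have hw := wd_measurable ρ
  have hc := kap_pos (72 * ρ + 1)
  set A := ∫⁻ u, ENNReal.ofReal (wd ρ (u - v0) * φ u ^ 2) with hA
  -- shifts
  have hS : ∀ j ∈ Finset.range 36, ∫⁻ u, ENNReal.ofReal ((φ u - φ (u + 2 * ρ * ((j : ℝ) + 1))) ^ 2)
      ≤ ENNReal.ofReal (1 / 36) := by
    intro j hj
    rw [Finset.mem_range] at hj
    have hj' : (j : ℝ) + 1 ≤ 36 := by exact_mod_cast hj
    have h1 := shift hφ hγ hφ0 hγ0 hφ1 hγ1 (T := 2 * ρ * ((j : ℝ) + 1)) (R := 72 * ρ)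
      (by positivity) (by nlinarith)
    have h2 : 4 * ∫⁻ u, ∫⁻ v, ENNReal.ofReal (kap (u - v) * (φ u - γ v) ^ 2) ≤
        ENNReal.ofReal (kap (72 * ρ + 1)) * ENNReal.ofReal (1 / 36) := by
      calc 4 * ∫⁻ u, ∫⁻ v, ENNReal.ofReal (kap (u - v) * (φ u - γ v) ^ 2)
          ≤ 4 * ENNReal.ofReal (kap (72 * ρ + 1) / 144) := by gcongr
        _ = ENNReal.ofReal (kap (72 * ρ + 1)) * ENNReal.ofReal (1 / 36) := by
          have h4 : (4 : ℝ≥0∞) = ENNReal.ofReal 4 := by norm_num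
          rw [h4, ← ENNReal.ofReal_mul (by norm_num), ← ENNReal.ofReal_mul hc.le]
          congr 1; ring
    have h3 := h1.trans h2
    rwa [ENNReal.mul_le_mul_iff_right (by rwa [Ne, ENNReal.ofReal_eq_zero, not_le])
      ENNReal.ofReal_ne_top] at h3
  set Aj : ℕ → ℝ≥0∞ := fun j =>
    ∫⁻ u, ENNReal.ofReal (wd ρ (u - v0 - 2 * ρ * ((j : ℝ) + 1)) * φ u ^ 2) with hAj
  have hstep : ∀ j ∈ Finset.range 36, A ≤ 2 * Aj j + 2 * ENNReal.ofReal (1 / 36) := by
    intro j hj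
    have e1 : Aj j = ∫⁻ u, ENNReal.ofReal (wd ρ (u - v0) * φ (u + 2 * ρ * ((j : ℝ) + 1)) ^ 2) := by
      have := lintegral_add_right_eq_self (μ := (volume : Measure ℝ))
        (fun u => ENNReal.ofReal (wd ρ (u - v0 - 2 * ρ * ((j : ℝ) + 1)) * φ u ^ 2))
        (2 * ρ * ((j : ℝ) + 1))
      rw [hAj]
      simp only
      rw [← this]
      congr 1; ext u; congr 3; ring
    calc A ≤ ∫⁻ u, (2 * ENNReal.ofReal (wd ρ (u - v0) * φ (u + 2 * ρ * ((j : ℝ) + 1)) ^ 2) +
          2 * ENNReal.ofReal ((φ u - φ (u + 2 * ρ * ((j : ℝ) + 1))) ^ 2)) := by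
          apply lintegral_mono
          intro u
          have h2 : (2 : ℝ≥0∞) = ENNReal.ofReal 2 := by norm_num
          have hw0 := wd_nonneg ρ (u - v0)
          have hw1 := wd_le_one ρ (u - v0)
          simp only
          rw [h2, ← ENNReal.ofReal_mul (by norm_num), ← ENNReal.ofReal_mul (by norm_num),
            ← ENNReal.ofReal_add (by positivity) (by positivity)]
          apply ENNReal.ofReal_le_ofReal
          set p := φ u
          set q := φ (u + 2 * ρ * ((j : ℝ) + 1))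
          have a1 : p ^ 2 ≤ 2 * q ^ 2 + 2 * (p - q) ^ 2 := by nlinarith [sq_nonneg (p - 2 * q)]
          have a2 := mul_le_mul_of_nonneg_left a1 hw0
          have a3 : wd ρ (u - v0) * (p - q) ^ 2 ≤ 1 * (p - q) ^ 2 :=
            mul_le_mul_of_nonneg_right hw1 (sq_nonneg _)
          nlinarith
      _ = 2 * Aj j + 2 * ∫⁻ u, ENNReal.ofReal ((φ u - φ (u + 2 * ρ * ((j : ℝ) + 1))) ^ 2) := by
          rw [lintegral_add_left (by fun_prop), lintegral_const_mul _ (by fun_prop),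
            lintegral_const_mul _ (by fun_prop), e1]
      _ ≤ _ := by
          gcongr
          exact hS j hj
  have hsum : ∑ j ∈ Finset.range 36, Aj j ≤ 1 := by
    rw [hAj]
    simp only
    rw [← lintegral_finsetSum _ (fun j _ => by fun_prop), ← hφ1]
    apply lintegral_mono
    intro u
    simp only
    rw [← ENNReal.ofReal_sum_of_nonneg (fun j _ => mul_nonneg (wd_nonneg _ _) (sq_nonneg _)),
      ← Finset.sum_mul]
    apply ENNReal.ofReal_le_ofReal
    have := wd_sum hρ 36 (u - v0)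
    calc _ ≤ 1 * φ u ^ 2 := mul_le_mul_of_nonneg_right this (sq_nonneg _)
      _ = _ := one_mul _
  have h36 : 36 * A ≤ 4 := by
    calc 36 * A = ∑ _j ∈ Finset.range 36, A := by simp
      _ ≤ ∑ j ∈ Finset.range 36, (2 * Aj j + 2 * ENNReal.ofReal (1 / 36)) :=
          Finset.sum_le_sum hstep
      _ = 2 * ∑ j ∈ Finset.range 36, Aj j + 2 := by
          rw [Finset.sum_add_distrib, ← Finset.mul_sum, Finset.sum_const, Finset.card_range]
          congr 1
          have h2 : (2 : ℝ≥0∞) = ENNReal.ofReal 2 := by norm_num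
          have h3 : ((36 : ℕ) : ℝ≥0∞) = ENNReal.ofReal 36 := by norm_num
          rw [nsmul_eq_mul, h2, ← ENNReal.ofReal_mul (by norm_num), h3,
            ← ENNReal.ofReal_mul (by norm_num)]
          norm_num
      _ ≤ 2 * 1 + 2 := by gcongr
      _ = 4 := by norm_num
  have h9 : (4 : ℝ≥0∞) = 36 * ENNReal.ofReal (1 / 9) := by
    have h3 : (36 : ℝ≥0∞) = ENNReal.ofReal 36 := by norm_num
    rw [h3, ← ENNReal.ofReal_mul (by norm_num)]; norm_num
  rw [h9] at h36
  rwa [ENNReal.mul_le_mul_iff_right (by norm_num) (by norm_num)] at h36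

lemma near {ρ : ℝ} (hρ : 0 < ρ)
    (hD : ∫⁻ u, ∫⁻ v, ENNReal.ofReal (kap (u - v) * (φ u - γ v) ^ 2) ≤
      ENNReal.ofReal (kap (72 * ρ + 1) / 144)) :
    ∫⁻ u, ∫⁻ v, ENNReal.ofReal (wd ρ (u - v) * (φ u ^ 2 * γ v ^ 2)) ≤ ENNReal.ofReal (1 / 9) := by
  have hw := wd_measurable ρ
  rw [lintegral_lintegral_swap (by fun_prop)]
  calc ∫⁻ v, ∫⁻ u, ENNReal.ofReal (wd ρ (u - v) * (φ u ^ 2 * γ v ^ 2))
      ≤ ∫⁻ v, ENNReal.ofReal (1 / 9) * ENNReal.ofReal (γ v ^ 2) := by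
        apply lintegral_mono
        intro v
        simp only
        have h1 : ∀ u, ENNReal.ofReal (wd ρ (u - v) * (φ u ^ 2 * γ v ^ 2)) =
            ENNReal.ofReal (wd ρ (u - v) * φ u ^ 2) * ENNReal.ofReal (γ v ^ 2) := by
          intro u
          rw [← ENNReal.ofReal_mul (mul_nonneg (wd_nonneg _ _) (sq_nonneg _)), mul_assoc]
        simp_rw [h1]
        rw [lintegral_mul_const _ (by fun_prop)]
        gcongr
        exact window hφ hγ hφ0 hγ0 hφ1 hγ1 hρ hD v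
    _ = ENNReal.ofReal (1 / 9) := by
        rw [lintegral_const_mul _ (by fun_prop), hγ1, mul_one]

lemma total : ∫⁻ u, ∫⁻ v, ENNReal.ofReal (φ u ^ 2 * γ v ^ 2) = 1 := by
  have h1 : ∀ u v, ENNReal.ofReal (φ u ^ 2 * γ v ^ 2) =
      ENNReal.ofReal (φ u ^ 2) * ENNReal.ofReal (γ v ^ 2) := fun u v =>
    ENNReal.ofReal_mul (sq_nonneg _)
  simp_rw [h1]
  have h2 : ∀ u, ∫⁻ v, ENNReal.ofReal (φ u ^ 2) * ENNReal.ofReal (γ v ^ 2) =
      ENNReal.ofReal (φ u ^ 2) := by
    intro u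
    rw [lintegral_const_mul _ (by fun_prop), hγ1, mul_one]
  simp_rw [h2]
  exact hφ1

end

end Pool.Agent.R264.HI
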