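import Pool.Agent.R264.HI.Defs

namespace Pool.Agent.R264.HI

/-- Lower bound for the constant in (I), from the test function `(1+x)^{-3/2}`. -/
def S_LOW : Prop := ∀ C : ℝ, HI C → 4 - 2 * √2 * Real.arsinh 1 ≤ C

/-- The numerical value. -/
def S_NUM : Prop := 3 / 2 < 4 - 2 * √2 * Real.arsinh 1

end Pool.Agent.R264.HI
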