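import Pool.Agent.R264.HI.Line

namespace Pool.Agent.R264.HI

open MeasureTheory Set Filter Topology
open scoped ENNReal NNReal

lemma amgm {p q k α : ℝ} (hp : 0 ≤ p) (hq : 0 ≤ q) (hk : 0 ≤ k) (hα : 0 < α) :
    (p * √p) * (q * √q) * √k ≤ α / 2 * (p ^ 2 * q ^ 2) + 1 / (2 * α) * (k * (p * q)) := by
  set a := √p with ha
  set b := √q with hb
  set t := √k with ht
  have e1 : p = a ^ 2 := (Real.sq_sqrt hp).symm
  have e2 : q = b ^ 2 := (Real.sq_sqrt hq).symm
  have e3 : k = t ^ 2 := (Real.sq_sqrt hk).symm
  have h0 : 0 ≤ (1 / (2 * α)) * (a * b * (α * (a * b) - t)) ^ 2 := by positivity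
  have h1 : α / 2 * (p ^ 2 * q ^ 2) + 1 / (2 * α) * (k * (p * q)) - (p * a) * (q * b) * t =
      (1 / (2 * α)) * (a * b * (α * (a * b) - t)) ^ 2 := by
    rw [e1, e2, e3]
    field_simp
    ring
  linarith

lemma split_rpow (x : ℝ) (hx : 0 ≤ x) :
    x = (x ^ (2 / 3 : ℝ)) * √(x ^ (2 / 3 : ℝ)) := by
  rw [Real.sqrt_eq_rpow, ← Real.rpow_mul hx, ← Real.rpow_add' hx (by norm_num)]
  norm_num

/-- The kernel outside the window. -/
noncomputable def far (r w : ℝ) : ℝ := if |w| ≤ r then 0 else kap w

lemma far_nonneg (r w : ℝ) : 0 ≤ far r w := by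
  unfold far; split_ifs
  · exact le_rfl
  · exact (kap_pos w).le

lemma far_measurable (r : ℝ) : Measurable (far r) := by
  unfold far
  apply Measurable.ite _ measurable_const kap_continuous.measurable
  exact measurableSet_le (by fun_prop) measurable_const

theorem line : ∃ c : ℝ, 0 < c ∧ c < √Real.pi ∧ HL c := by
  obtain ⟨r, hr, htail⟩ := kap_tail (ε := Real.pi / 9) (by positivity)
  set ρ := 2 * r with hρ
  have hρ0 : 0 < ρ := by positivity
  set d := kap (72 * ρ + 1) / 144 with hd
  have hd0 : 0 < d := by have := kap_pos (72 * ρ + 1); positivity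
  set s := √Real.pi with hs
  have hs0 : 0 < s := Real.sqrt_pos.mpr Real.pi_pos
  have hs2 : s * s = Real.pi := Real.mul_self_sqrt Real.pi_pos.le
  refine ⟨max (2 / 3 * s) (s - d / (4 * s)), ?_, ?_, ?_⟩
  · exact lt_max_of_lt_left (by positivity)
  · apply max_lt
    · linarith
    · have : 0 < d / (4 * s) := by positivity
      linarith
  intro F G hF hG hF1 hG1
  set φ : ℝ → ℝ := fun u => (F u : ℝ) ^ (2 / 3 : ℝ) with hφd
  set γ : ℝ → ℝ := fun u => (G u : ℝ) ^ (2 / 3 : ℝ) with hγd
  have hφ : Measurable φ := by rw [hφd]; fun_prop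
  have hγ : Measurable γ := by rw [hγd]; fun_prop
  have hφ0 : ∀ u, 0 ≤ φ u := fun u => by positivity
  have hγ0 : ∀ u, 0 ≤ γ u := fun u => by positivity
  have conv : ∀ x : ℝ≥0, ENNReal.ofReal (((x : ℝ) ^ (2 / 3 : ℝ)) ^ 2) =
      (x : ℝ≥0∞) ^ (4 / 3 : ℝ) := by
    intro x
    rw [← Real.rpow_natCast, ← Real.rpow_mul x.coe_nonneg,
      ← ENNReal.ofReal_rpow_of_nonneg x.coe_nonneg (by positivity), ENNReal.ofReal_coe_nnreal]
    norm_num
  have hφ1 : ∫⁻ u, ENNReal.ofReal (φ u ^ 2) = 1 := by
    rw [← hF1]; congr 1; ext u; exact conv _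
  have hγ1 : ∫⁻ u, ENNReal.ofReal (γ u ^ 2) = 1 := by
    rw [← hG1]; congr 1; ext u; exact conv _
  have hB : ∀ u v, (F u : ℝ≥0∞) * (G v : ℝ≥0∞) * ENNReal.ofReal (√(kap (u - v))) =
      ENNReal.ofReal ((φ u * √(φ u)) * (γ v * √(γ v)) * √(kap (u - v))) := by
    intro u v
    rw [← split_rpow _ (F u).coe_nonneg, ← split_rpow _ (G v).coe_nonneg,
      ENNReal.ofReal_mul (by positivity), ENNReal.ofReal_mul (by positivity),
      ENNReal.ofReal_coe_nnreal, ENNReal.ofReal_coe_nnreal]
  simp_rw [hB]
  have hk := kap_continuous.measurable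
  have hw := wd_measurable ρ
  have hf := far_measurable r
  have htot := total hφ hγ hφ0 hγ0 hφ1 hγ1
  have hH : ∫⁻ u, ∫⁻ v, ENNReal.ofReal (kap (u - v) * (φ u * γ v)) ≤ ENNReal.ofReal Real.pi := by
    rw [← lintegral_kap]
    exact schur hφ hγ hφ0 hγ0 hφ1 hγ1 hk (fun w => (kap_pos w).le)
  have hfar : ∫⁻ u, ∫⁻ v, ENNReal.ofReal (far r (u - v) * (φ u * γ v)) ≤
      ENNReal.ofReal (Real.pi / 9) :=
    (schur hφ hγ hφ0 hγ0 hφ1 hγ1 hf (far_nonneg r)).trans htail
  -- measurability on the product
  have m1 : Measurable (fun z : ℝ × ℝ => ENNReal.ofReal (wd ρ (z.1 - z.2) * (φ z.1 ^ 2 * γ z.2 ^ 2))) := by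
    fun_prop
  have m2 : Measurable (fun z : ℝ × ℝ => ENNReal.ofReal (kap (z.1 - z.2) * (φ z.1 * γ z.2))) := by
    fun_prop
  have m3 : Measurable (fun z : ℝ × ℝ => ENNReal.ofReal (φ z.1 ^ 2 * γ z.2 ^ 2)) := by
    fun_prop
  have m4 : Measurable (fun z : ℝ × ℝ => ENNReal.ofReal (far r (z.1 - z.2) * (φ z.1 * γ z.2))) := by
    fun_prop
  have m0 : Measurable (fun z : ℝ × ℝ => ENNReal.ofReal
      ((φ z.1 * √(φ z.1)) * (γ z.2 * √(γ z.2)) * √(kap (z.1 - z.2)))) := by
    fun_prop
  have p0 := lintegral_prod (μ := (volume : Measure ℝ)) (ν := (volume : Measure ℝ)) _ m0.aemeasurable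
  have p1 := lintegral_prod (μ := (volume : Measure ℝ)) (ν := (volume : Measure ℝ)) _ m1.aemeasurable
  have p2 := lintegral_prod (μ := (volume : Measure ℝ)) (ν := (volume : Measure ℝ)) _ m2.aemeasurable
  have p3 := lintegral_prod (μ := (volume : Measure ℝ)) (ν := (volume : Measure ℝ)) _ m3.aemeasurable
  have p4 := lintegral_prod (μ := (volume : Measure ℝ)) (ν := (volume : Measure ℝ)) _ m4.aemeasurable
  simp only at p0 p1 p2 p3 p4
  rw [← p0]
  rw [← p2] at hH
  rw [← p3] at htot
  rw [← p4] at hfar
  rcases le_total (∫⁻ u, ∫⁻ v, ENNReal.ofReal (kap (u - v) * (φ u - γ v) ^ 2))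
    (ENNReal.ofReal d) with hD | hD
  · -- small defect: the mass is spread out
    have hnear := near hφ hγ hφ0 hγ0 hφ1 hγ1 hρ0 hD
    rw [← p1] at hnear
    calc ∫⁻ z, ENNReal.ofReal ((φ z.1 * √(φ z.1)) * (γ z.2 * √(γ z.2)) * √(kap (z.1 - z.2)))
          ∂((volume : Measure ℝ).prod volume)
        ≤ ∫⁻ z, (ENNReal.ofReal (3 * s / 2) *
              ENNReal.ofReal (wd ρ (z.1 - z.2) * (φ z.1 ^ 2 * γ z.2 ^ 2)) +
            (ENNReal.ofReal (1 / (6 * s)) *
              ENNReal.ofReal (kap (z.1 - z.2) * (φ z.1 * γ z.2)) +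
            (ENNReal.ofReal (s / 6) * ENNReal.ofReal (φ z.1 ^ 2 * γ z.2 ^ 2) +
            ENNReal.ofReal (3 / (2 * s)) *
              ENNReal.ofReal (far r (z.1 - z.2) * (φ z.1 * γ z.2)))))
          ∂((volume : Measure ℝ).prod volume) := by
          apply lintegral_mono
          rintro ⟨u, v⟩
          simp only
          have hp := hφ0 u
          have hq := hγ0 v
          have hk0 := (kap_pos (u - v)).le
          have hw0 := wd_nonneg ρ (u - v)
          have hf0 := far_nonneg r (u - v)
          rw [← ENNReal.ofReal_mul (by positivity), ← ENNReal.ofReal_mul (by positivity),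
            ← ENNReal.ofReal_mul (by positivity), ← ENNReal.ofReal_mul (by positivity),
            ← ENNReal.ofReal_add (by positivity) (by positivity),
            ← ENNReal.ofReal_add (by positivity) (by positivity),
            ← ENNReal.ofReal_add (by positivity) (by positivity)]
          apply ENNReal.ofReal_le_ofReal
          by_cases hwin : -ρ < u - v ∧ u - v ≤ ρ
          · have e1 : wd ρ (u - v) = 1 := by unfold wd; rw [if_pos hwin]
            have h1 := amgm hp hq hk0 (α := 3 * s) (by positivity)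
            have h2 : 0 ≤ s / 6 * (φ u ^ 2 * γ v ^ 2) := by positivity
            have h3 : 0 ≤ 3 / (2 * s) * (far r (u - v) * (φ u * γ v)) := by positivity
            have h4 : 1 / (2 * (3 * s)) = 1 / (6 * s) := by congr 1; ring
            rw [h4] at h1
            rw [e1, one_mul]
            linarith
          · have e2 : far r (u - v) = kap (u - v) := by
              unfold far
              rw [if_neg]
              intro habs
              apply hwin
              rw [abs_le] at habs
              constructor <;> linarith [habs.1, habs.2]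
            have h1 := amgm hp hq hk0 (α := s / 3) (by positivity)
            have h2 : 0 ≤ 3 * s / 2 * (wd ρ (u - v) * (φ u ^ 2 * γ v ^ 2)) := by positivity
            have h3 : 0 ≤ 1 / (6 * s) * (kap (u - v) * (φ u * γ v)) := by positivity
            have h4 : 1 / (2 * (s / 3)) = 3 / (2 * s) := by field_simp
            have h5 : s / 3 / 2 = s / 6 := by ring
            rw [h4, h5] at h1
            rw [e2]
            linarith
      _ = ENNReal.ofReal (3 * s / 2) *
              (∫⁻ z, ENNReal.ofReal (wd ρ (z.1 - z.2) * (φ z.1 ^ 2 * γ z.2 ^ 2))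
                ∂((volume : Measure ℝ).prod volume)) +
            (ENNReal.ofReal (1 / (6 * s)) *
              (∫⁻ z, ENNReal.ofReal (kap (z.1 - z.2) * (φ z.1 * γ z.2))
                ∂((volume : Measure ℝ).prod volume)) +
            (ENNReal.ofReal (s / 6) *
              (∫⁻ z, ENNReal.ofReal (φ z.1 ^ 2 * γ z.2 ^ 2)
                ∂((volume : Measure ℝ).prod volume)) +
            ENNReal.ofReal (3 / (2 * s)) *
              (∫⁻ z, ENNReal.ofReal (far r (z.1 - z.2) * (φ z.1 * γ z.2))
                ∂((volume : Measure ℝ).prod volume)))) := by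
          rw [lintegral_add_left (m1.const_mul _), lintegral_add_left (m2.const_mul _),
            lintegral_add_left (m3.const_mul _), lintegral_const_mul _ m1,
            lintegral_const_mul _ m2, lintegral_const_mul _ m3, lintegral_const_mul _ m4]
      _ ≤ ENNReal.ofReal (3 * s / 2) * ENNReal.ofReal (1 / 9) +
            (ENNReal.ofReal (1 / (6 * s)) * ENNReal.ofReal Real.pi +
            (ENNReal.ofReal (s / 6) * ENNReal.ofReal 1 +
            ENNReal.ofReal (3 / (2 * s)) * ENNReal.ofReal (Real.pi / 9))) := by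
          rw [htot, ENNReal.ofReal_one]
          gcongr
      _ = ENNReal.ofReal (2 / 3 * s) := by
          have hpi := Real.pi_pos
          rw [← ENNReal.ofReal_mul (by positivity), ← ENNReal.ofReal_mul (by positivity),
            ← ENNReal.ofReal_mul (by positivity), ← ENNReal.ofReal_mul (by positivity),
            ← ENNReal.ofReal_add (by positivity) (by positivity),
            ← ENNReal.ofReal_add (by positivity) (by positivity),
            ← ENNReal.ofReal_add (by positivity) (by positivity)]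
          congr 1
          rw [← hs2]
          field_simp
          ring
      _ ≤ _ := ENNReal.ofReal_le_ofReal (le_max_left _ _)
  · -- large defect: Hilbert's inequality is improved
    have hdef := defect hφ hγ hφ0 hγ0 hφ1 hγ1
    rw [← p2] at hdef
    set H := ∫⁻ z, ENNReal.ofReal (kap (z.1 - z.2) * (φ z.1 * γ z.2))
                ∂((volume : Measure ℝ).prod volume) with hHdef
    have hHtop : H ≠ ∞ := ne_top_of_le_ne_top ENNReal.ofReal_ne_top hH
    have h1 : ENNReal.ofReal d + 2 * H ≤ ENNReal.ofReal (2 * Real.pi) := by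
      rw [← hdef]; gcongr
    have h2 : H ≤ ENNReal.ofReal (Real.pi - d / 2) := by
      rw [← ENNReal.ofReal_toReal hHtop] at h1 ⊢
      have h3 : (2 : ℝ≥0∞) = ENNReal.ofReal 2 := by norm_num
      rw [h3, ← ENNReal.ofReal_mul (by norm_num), ← ENNReal.ofReal_add hd0.le (by positivity),
        ENNReal.ofReal_le_ofReal_iff (by positivity)] at h1
      apply ENNReal.ofReal_le_ofReal
      linarith
    have hpos : 0 ≤ Real.pi - d / 2 := by
      have h3 : ENNReal.ofReal d ≤ ENNReal.ofReal (2 * Real.pi) := le_trans le_self_add h1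
      rw [ENNReal.ofReal_le_ofReal_iff (by positivity)] at h3
      linarith
    calc ∫⁻ z, ENNReal.ofReal ((φ z.1 * √(φ z.1)) * (γ z.2 * √(γ z.2)) * √(kap (z.1 - z.2)))
          ∂((volume : Measure ℝ).prod volume)
        ≤ ∫⁻ z, (ENNReal.ofReal (s / 2) * ENNReal.ofReal (φ z.1 ^ 2 * γ z.2 ^ 2) +
            ENNReal.ofReal (1 / (2 * s)) *
              ENNReal.ofReal (kap (z.1 - z.2) * (φ z.1 * γ z.2)))
          ∂((volume : Measure ℝ).prod volume) := by
          apply lintegral_mono
          rintro ⟨u, v⟩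
          simp only
          have hp := hφ0 u
          have hq := hγ0 v
          have hk0 := (kap_pos (u - v)).le
          rw [← ENNReal.ofReal_mul (by positivity), ← ENNReal.ofReal_mul (by positivity),
            ← ENNReal.ofReal_add (by positivity) (by positivity)]
          exact ENNReal.ofReal_le_ofReal (amgm hp hq hk0 hs0)
      _ = ENNReal.ofReal (s / 2) * 1 + ENNReal.ofReal (1 / (2 * s)) * H := by
          rw [lintegral_add_left (m3.const_mul _), lintegral_const_mul _ m3,
            lintegral_const_mul _ m2, htot]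
      _ ≤ ENNReal.ofReal (s / 2) * ENNReal.ofReal 1 +
            ENNReal.ofReal (1 / (2 * s)) * ENNReal.ofReal (Real.pi - d / 2) := by
          rw [ENNReal.ofReal_one]
          gcongr
      _ = ENNReal.ofReal (s - d / (4 * s)) := by
          rw [← ENNReal.ofReal_mul (by positivity), ← ENNReal.ofReal_mul (by positivity),
            ← ENNReal.ofReal_add (by positivity) (by positivity)]
          congr 1
          rw [← hs2]
          field_simp
          ring
      _ ≤ _ := ENNReal.ofReal_le_ofReal (le_max_right _ _)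

end Pool.Agent.R264.HI
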