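import Pool.Agent.R264.HI.LowStm

namespace Pool.Agent.R264.HI

theorem t_NUM : S_NUM := by
  unfold S_NUM
  have h1 : √2 < (1.41422 : ℝ) := by
    rw [Real.sqrt_lt' (by norm_num)]
    norm_num
  have h0 : (0 : ℝ) < √2 := Real.sqrt_pos.2 (by norm_num)
  have h2 : (2.4143 : ℝ) < Real.exp 0.8835 := by
    have h := Real.sum_le_exp_of_nonneg (x := (0.8835 : ℝ)) (by norm_num) 6
    refine lt_of_lt_of_le ?_ h
    norm_num [Finset.sum_range_succ, Nat.factorial]
  have h3 : Real.arsinh 1 < 0.8835 := by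
    rw [Real.arsinh]
    have h4 : (1 : ℝ) + √(1 + 1 ^ 2) = 1 + √2 := by norm_num
    rw [h4, Real.log_lt_iff_lt_exp (by positivity)]
    linarith
  have h5 : √2 * Real.arsinh 1 < 1.41422 * 0.8835 := by
    have h6 : 0 ≤ Real.arsinh 1 := Real.arsinh_nonneg_iff.2 zero_le_one
    calc √2 * Real.arsinh 1 ≤ 1.41422 * Real.arsinh 1 := by gcongr
      _ < 1.41422 * 0.8835 := by
        have : (0 : ℝ) < 1.41422 := by norm_num
        gcongr
  have h7 : 2 * √2 * Real.arsinh 1 = 2 * (√2 * Real.arsinh 1) := by ring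
  rw [h7]
  norm_num at h5 ⊢
  linarith

end Pool.Agent.R264.HI
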