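import Pool.Agent.R264.HI.Defs

/-!
# HI-SI (helper139): the integral inequality implies the series inequality
-/

namespace Pool.Agent.R264.HI

open MeasureTheory Set
open scoped ENNReal NNReal

theorem lint_floor (H : ℕ → ℝ≥0∞) :
    ∫⁻ x in Ioi (0 : ℝ), H ⌊x⌋₊ = ∑' m, H m := by
  have e : (⋃ m : ℕ, Ico (m : ℝ) (m + 1)) = Ici (0 : ℝ) := by
    ext x
    simp only [mem_iUnion, mem_Ico, mem_Ici]
    constructor
    · rintro ⟨m, h1, _⟩
      exact (Nat.cast_nonneg m).trans h1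
    · intro hx
      exact ⟨⌊x⌋₊, Nat.floor_le hx, Nat.lt_floor_add_one x⟩
  have hd : Pairwise (Function.onFun Disjoint fun m : ℕ => Ico (m : ℝ) (m + 1)) := by
    intro m n hmn
    rw [Function.onFun, Set.disjoint_left]
    rintro x ⟨h1, h2⟩ ⟨h3, h4⟩
    have h5 : (m : ℝ) < n + 1 := h1.trans_lt h4
    have h6 : (n : ℝ) < m + 1 := h3.trans_lt h2
    have h7 : m < n + 1 := by exact_mod_cast h5
    have h8 : n < m + 1 := by exact_mod_cast h6
    exact hmn (by omega)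
  rw [setLIntegral_congr Ioi_ae_eq_Ici, ← e, lintegral_iUnion (fun m => measurableSet_Ico) hd]
  refine tsum_congr fun m => ?_
  have h1 : ∫⁻ x in Ico (m : ℝ) (m + 1), H ⌊x⌋₊ = ∫⁻ _ in Ico (m : ℝ) (m + 1), H m := by
    refine setLIntegral_congr_fun measurableSet_Ico fun x hx => ?_
    have h2 : ⌊x⌋₊ = m := (Nat.floor_eq_iff ((Nat.cast_nonneg m).trans hx.1)).2 hx
    show H ⌊x⌋₊ = H m
    rw [h2]
  rw [h1, setLIntegral_const, Real.volume_Ico, add_sub_cancel_left, ENNReal.ofReal_one, mul_one]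

theorem kerS_le (x y : ℝ) (hx : 0 < x) (hy : 0 < y) : kerS ⌊x⌋₊ ⌊y⌋₊ ≤ kerI x y := by
  unfold kerS kerI
  refine ENNReal.ofReal_le_ofReal ?_
  refine Real.rpow_le_rpow_of_nonpos (by positivity) ?_ (by norm_num)
  have h1 := (Nat.lt_floor_add_one x).le
  have h2 := (Nat.lt_floor_add_one y).le
  linarith

theorem t_SI : S_SI := by
  intro C hC a b ha hb
  set f : ℝ → ℝ≥0 := fun x => a ⌊x⌋₊ with hf
  set g : ℝ → ℝ≥0 := fun x => b ⌊x⌋₊ with hg
  have hfm : Measurable f := (measurable_of_countable a).comp Nat.measurable_floor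
  have hgm : Measurable g := (measurable_of_countable b).comp Nat.measurable_floor
  have e1 : normI f = normS a := by
    unfold normI normS
    rw [← lint_floor (fun m => (a m : ℝ≥0∞) ^ (4 / 3 : ℝ))]
  have e2 : normI g = normS b := by
    unfold normI normS
    rw [← lint_floor (fun m => (b m : ℝ≥0∞) ^ (4 / 3 : ℝ))]
  have h1 := hC f g hfm hgm (by rw [e1]; exact ha) (by rw [e2]; exact hb)
  rw [e1, e2] at h1
  refine le_trans ?_ h1
  have e3 : formS a b = ∫⁻ x in Ioi (0 : ℝ), ∫⁻ y in Ioi (0 : ℝ),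
      (a ⌊x⌋₊ : ℝ≥0∞) * (b ⌊y⌋₊ : ℝ≥0∞) * kerS ⌊x⌋₊ ⌊y⌋₊ := by
    unfold formS
    rw [← lint_floor (fun m => ∑' n, (a m : ℝ≥0∞) * (b n : ℝ≥0∞) * kerS m n)]
    refine lintegral_congr fun x => ?_
    exact (lint_floor (fun n => (a ⌊x⌋₊ : ℝ≥0∞) * (b n : ℝ≥0∞) * kerS ⌊x⌋₊ n)).symm
  rw [e3]
  unfold formI
  refine setLIntegral_mono' measurableSet_Ioi fun x hx => ?_
  refine setLIntegral_mono' measurableSet_Ioi fun y hy => ?_
  exact mul_le_mul_right (kerS_le x y hx hy) _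

end Pool.Agent.R264.HI
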